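import Pool.Agent.Lib.MP_a260de_nt.CN.SpecA

/-!
MP_a260de_nt, PROJECT CN, part A, module BT: Selberg's upper bound for the primes `a s + 1`.
-/

namespace Pool.Agent.Lib.MP_a260de_nt.CN.A

open Finset

namespace BT

/-- the solution of the congruence -/
private theorem exists_root (a m : ℕ) (hm : 1 ≤ m) (h : a.Coprime m) : ∃ r, m ∣ a * r + 1 := by
  rcases Nat.lt_or_ge 1 m with h1 | h1
  · obtain ⟨k, _, hk⟩ := Nat.exists_mul_mod_eq_one_of_coprime h h1
    refine ⟨k * (m - 1), ?_⟩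
    have h2 : a * k ≡ 1 [MOD m] := by
      unfold Nat.ModEq
      rw [hk, Nat.mod_eq_of_lt h1]
    have h3 : a * k * (m - 1) + 1 ≡ 1 * (m - 1) + 1 [MOD m] :=
      (h2.mul_right (m - 1)).add_right 1
    have h4 : 1 * (m - 1) + 1 = m := by omega
    rw [h4] at h3
    have h5 : a * (k * (m - 1)) + 1 = a * k * (m - 1) + 1 := by ring
    rw [h5]
    exact (Nat.modEq_zero_iff_dvd.mp (h3.trans (by
      unfold Nat.ModEq
      simp)))
  · have : m = 1 := by omega
    subst this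
    exact ⟨0, one_dvd _⟩

/-- the number of solutions in an interval -/
private theorem count_dvd (a m t H : ℕ) (hm : 1 ≤ m) (h : a.Coprime m) :
    |(((Ioc t (t + H)).filter (fun s : ℕ => m ∣ a * s + 1)).card : ℝ) - (H : ℝ) / m| ≤ 1 := by
  obtain ⟨r, hr⟩ := exists_root a m hm h
  have h1 : (Ioc t (t + H)).filter (fun s : ℕ => m ∣ a * s + 1) =
      (Ioc t (t + H)).filter (fun s : ℕ => s ≡ r [MOD m]) := by
    ext s
    simp only [mem_filter]
    refine and_congr_right fun _ => ⟨fun h2 => ?_, fun h2 => ?_⟩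
    · have h3 : a * s + 1 ≡ a * r + 1 [MOD m] :=
        (Nat.modEq_zero_iff_dvd.mpr h2).trans (Nat.modEq_zero_iff_dvd.mpr hr).symm
      have h4 : a * s ≡ a * r [MOD m] := Nat.ModEq.add_right_cancel' 1 h3
      exact Nat.ModEq.cancel_left_of_coprime h.symm h4
    · have h3 : a * s + 1 ≡ a * r + 1 [MOD m] := (h2.mul_left a).add_right 1
      exact Nat.modEq_zero_iff_dvd.mp (h3.trans (Nat.modEq_zero_iff_dvd.mpr hr))
  have hm0 : 0 < m := hm
  have h2 := Nat.Ioc_filter_modEq_card t (t + H) hm0 r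
  rw [h1]
  obtain ⟨N, hN⟩ : ∃ N : ℕ, N = ((Ioc t (t + H)).filter (fun s : ℕ => s ≡ r [MOD m])).card :=
    ⟨_, rfl⟩
  rw [← hN] at h2 ⊢
  obtain ⟨x, hx⟩ : ∃ x : ℚ, x = ((t : ℚ) - r) / m := ⟨_, rfl⟩
  obtain ⟨y, hy⟩ : ∃ y : ℚ, y = (((t + H : ℕ) : ℚ) - r) / m := ⟨_, rfl⟩
  have hmq : (0 : ℚ) < m := by exact_mod_cast hm0
  have hxy : y = x + (H : ℚ) / m := by
    rw [hy, hx]
    push_cast
    field_simp
    ring
  rw [← hx, ← hy] at h2
  have hH : (0 : ℚ) ≤ (H : ℚ) / m := by positivity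
  have h3 : ⌊x⌋ ≤ ⌊y⌋ := Int.floor_le_floor (by rw [hxy]; linarith)
  rw [max_eq_left (by omega)] at h2
  have h4 : (N : ℚ) = (⌊y⌋ : ℚ) - (⌊x⌋ : ℚ) := by exact_mod_cast h2
  have h5 := Int.floor_le x
  have h6 := Int.lt_floor_add_one x
  have h7 := Int.floor_le y
  have h8 := Int.lt_floor_add_one y
  have h9 : |(N : ℚ) - (H : ℚ) / m| ≤ 1 := by
    rw [abs_le, h4]
    constructor
    · linarith [hxy]
    · linarith [hxy]
  have h10 : (((|(N : ℚ) - (H : ℚ) / m| : ℚ)) : ℝ) ≤ ((1 : ℚ) : ℝ) := by exact_mod_cast h9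
  push_cast at h10
  exact h10

private theorem coprime_lcm {a d d' : ℕ} (h : d.Coprime a) (h' : d'.Coprime a) :
    a.Coprime (Nat.lcm d d') :=
  (Nat.Coprime.coprime_dvd_left (Nat.lcm_dvd_mul d d') (Nat.Coprime.mul_left h h')).symm

/-- the weight -/
private noncomputable def w (a E s : ℕ) : ℝ :=
  (∑ d ∈ Icc 1 E, if d ∣ a * s + 1 then sla a E d else 0) ^ 2

private theorem w_nonneg (a E s : ℕ) : 0 ≤ w a E s := sq_nonneg _

private theorem w_prime (a E s : ℕ) (hE : 1 ≤ E) (h1 : sla a E 1 = 1)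
    (hp : (a * s + 1).Prime) (hs : E < a * s + 1) : w a E s = 1 := by
  unfold w
  rw [sum_eq_single 1]
  · rw [if_pos (one_dvd _), h1, one_pow]
  · intro d hd hd1
    rw [mem_Icc] at hd
    refine if_neg fun h => ?_
    rcases (Nat.dvd_prime hp).mp h with h2 | h2
    · exact hd1 h2
    · omega
  · intro h
    exact absurd (mem_Icc.mpr ⟨le_rfl, hE⟩) h

private theorem w_expand (a E s : ℕ) : w a E s = ∑ d ∈ Icc 1 E, ∑ d' ∈ Icc 1 E,
    sla a E d * sla a E d' * (if Nat.lcm d d' ∣ a * s + 1 then 1 else 0) := by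
  unfold w
  rw [sq, sum_mul_sum]
  refine sum_congr rfl fun d _ => sum_congr rfl fun d' _ => ?_
  by_cases h : d ∣ a * s + 1
  · by_cases h' : d' ∣ a * s + 1
    · rw [if_pos h, if_pos h', if_pos (Nat.lcm_dvd h h'), mul_one]
    · rw [if_neg h', if_neg fun h2 => h' ((Nat.dvd_lcm_right d d').trans h2), mul_zero, mul_zero]
  · rw [if_neg h, if_neg fun h2 => h ((Nat.dvd_lcm_left d d').trans h2), zero_mul, mul_zero]

end BT

open BT in
theorem tBT (h1 : S_GaL) (h2 : S_GaW) (h3 : S_GaQ) : S_BT := by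
  intro a E t H ha hE
  have hE1 : 1 ≤ E := by omega
  obtain ⟨hs1, hs2, hs3⟩ := h2 a E hE1
  have hlog : 0 < Real.log E := Real.log_pos (by exact_mod_cast hE)
  have hphi : (0 : ℝ) < (a.totient : ℝ) := by exact_mod_cast Nat.totient_pos.2 ha
  have ha' : (0 : ℝ) < (a : ℝ) := by exact_mod_cast ha
  have hGa := h1 a E ha hE1
  have hGpos : 0 < Ga a E := lt_of_lt_of_le (by positivity) hGa
  -- the main inequality
  have hA : (((Ioc t (t + H)).filter (fun s : ℕ => (a * s + 1).Prime ∧ E < a * s + 1)).card : ℝ) ≤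
      ∑ s ∈ Ioc t (t + H), w a E s := by
    rw [card_eq_sum_ones]
    push_cast
    calc ∑ s ∈ (Ioc t (t + H)).filter (fun s : ℕ => (a * s + 1).Prime ∧ E < a * s + 1), (1 : ℝ)
        = ∑ s ∈ (Ioc t (t + H)).filter (fun s : ℕ => (a * s + 1).Prime ∧ E < a * s + 1),
            w a E s := by
          refine sum_congr rfl fun s hs => ?_
          have h4 := (mem_filter.mp hs).2
          exact (w_prime a E s hE1 hs1 h4.1 h4.2).symm
      _ ≤ ∑ s ∈ Ioc t (t + H), w a E s :=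
          sum_le_sum_of_subset_of_nonneg (filter_subset _ _) fun s _ _ => w_nonneg a E s
  have hB : ∑ s ∈ Ioc t (t + H), w a E s = ∑ d ∈ Icc 1 E, ∑ d' ∈ Icc 1 E,
      sla a E d * sla a E d' *
        (((Ioc t (t + H)).filter (fun s : ℕ => Nat.lcm d d' ∣ a * s + 1)).card : ℝ) := by
    rw [sum_congr rfl fun s _ => w_expand a E s, sum_comm]
    refine sum_congr rfl fun d _ => ?_
    rw [sum_comm]
    refine sum_congr rfl fun d' _ => ?_
    rw [← mul_sum]
    congr 1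
    rw [card_eq_sum_ones, sum_filter]
    push_cast
    rfl
  have hC : ∑ d ∈ Icc 1 E, ∑ d' ∈ Icc 1 E, sla a E d * sla a E d' *
        (((Ioc t (t + H)).filter (fun s : ℕ => Nat.lcm d d' ∣ a * s + 1)).card : ℝ) ≤
      ∑ d ∈ Icc 1 E, ∑ d' ∈ Icc 1 E,
        ((H : ℝ) * (sla a E d * sla a E d' / (Nat.lcm d d' : ℝ)) + 1) := by
    refine sum_le_sum fun d hd => sum_le_sum fun d' hd' => ?_
    rw [mem_Icc] at hd hd'
    by_cases h0 : sla a E d * sla a E d' = 0
    · rw [h0]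
      simp
    · have hd0 : sla a E d ≠ 0 := left_ne_zero_of_mul h0
      have hd0' : sla a E d' ≠ 0 := right_ne_zero_of_mul h0
      have hco := coprime_lcm (hs3 d hd0) (hs3 d' hd0')
      have hm : 1 ≤ Nat.lcm d d' := Nat.lcm_pos (by omega) (by omega)
      have h4 := count_dvd a (Nat.lcm d d') t H hm hco
      obtain ⟨N, hN⟩ : ∃ N : ℝ, N =
        (((Ioc t (t + H)).filter (fun s : ℕ => Nat.lcm d d' ∣ a * s + 1)).card : ℝ) := ⟨_, rfl⟩
      rw [← hN] at h4 ⊢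
      obtain ⟨W, hW⟩ : ∃ W : ℝ, W = sla a E d * sla a E d' := ⟨_, rfl⟩
      have hWabs : |W| ≤ 1 := by
        rw [hW, abs_mul]
        exact mul_le_one₀ (hs2 d) (abs_nonneg _) (hs2 d')
      rw [← hW]
      have h5 : W * N = (H : ℝ) * (W / (Nat.lcm d d' : ℝ)) +
          W * (N - (H : ℝ) / (Nat.lcm d d' : ℕ)) := by ring
      have h6 : W * (N - (H : ℝ) / (Nat.lcm d d' : ℕ)) ≤ 1 := by
        refine le_trans (le_abs_self _) ?_
        rw [abs_mul]
        exact mul_le_one₀ hWabs (abs_nonneg _) h4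
      linarith
  have hD : ∑ d ∈ Icc 1 E, ∑ d' ∈ Icc 1 E,
        ((H : ℝ) * (sla a E d * sla a E d' / (Nat.lcm d d' : ℝ)) + 1) =
      (H : ℝ) * (1 / Ga a E) + (E : ℝ) ^ 2 := by
    rw [← h3 a E hE1, mul_sum]
    have h4 : ∀ d ∈ Icc 1 E, ∑ d' ∈ Icc 1 E,
        ((H : ℝ) * (sla a E d * sla a E d' / (Nat.lcm d d' : ℝ)) + 1) =
        (H : ℝ) * ∑ d' ∈ Icc 1 E, sla a E d * sla a E d' / (Nat.lcm d d' : ℝ) + E := by
      intro d _
      rw [sum_add_distrib, mul_sum]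
      congr 1
      simp
    rw [sum_congr rfl h4, sum_add_distrib]
    congr 1
    simp
    ring
  have hF : (H : ℝ) * (1 / Ga a E) ≤ (H : ℝ) * ((a : ℝ) / (a.totient : ℝ)) / Real.log E := by
    rw [mul_div_assoc]
    refine mul_le_mul_of_nonneg_left ?_ (Nat.cast_nonneg H)
    rw [div_le_div_iff₀ hGpos hlog, one_mul]
    calc Real.log E = (a : ℝ) / (a.totient : ℝ) * ((a.totient : ℝ) / (a : ℝ) * Real.log E) := by
          field_simp
      _ ≤ (a : ℝ) / (a.totient : ℝ) * Ga a E := mul_le_mul_of_nonneg_left hGa (by positivity)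
  calc (((Ioc t (t + H)).filter (fun s : ℕ => (a * s + 1).Prime ∧ E < a * s + 1)).card : ℝ)
      ≤ ∑ s ∈ Ioc t (t + H), w a E s := hA
    _ ≤ (H : ℝ) * (1 / Ga a E) + (E : ℝ) ^ 2 := by rw [hB, ← hD]; exact hC
    _ ≤ _ := by linarith

end Pool.Agent.Lib.MP_a260de_nt.CN.A
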