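import Pool.Agent.Lib.MP_a260de_nt.CN.SpecA

/-!
MP_a260de_nt, PROJECT CN, part A, module C0s (helper80): summability of c0.
-/

namespace Pool.Agent.Lib.MP_a260de_nt.CN.A

open Finset

namespace C0s

/-- `d ≤ 2 φ(d)^2` for the product of a set of primes, `d ≤ φ(d)^2` if `2` is not in the set. -/
private theorem tot_sq (t : Finset ℕ) (h : ∀ p ∈ t, p.Prime) :
    (∏ p ∈ t, p) ≤ (if 2 ∈ t then 2 else 1) * (∏ p ∈ t, p).totient ^ 2 := by
  induction t using Finset.induction_on with
  | empty => simp
  | insert a s ha ih =>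
    have hap : a.Prime := h a (mem_insert_self a s)
    have hs : ∀ p ∈ s, p.Prime := fun p hp => h p (mem_insert_of_mem hp)
    have ih' := ih hs
    have hcop : Nat.Coprime a (∏ p ∈ s, p) := by
      refine Nat.Coprime.prod_right fun p hp => ?_
      exact (Nat.coprime_primes hap (hs p hp)).2 (fun hne => ha (hne ▸ hp))
    rw [prod_insert ha, Nat.totient_mul hcop, Nat.totient_prime hap]
    rcases hap.eq_two_or_odd with h2 | h2
    · subst h2
      rw [if_neg ha] at ih'
      rw [if_pos (mem_insert_self 2 s)]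
      simpa using ih'
    · have ha3 : 3 ≤ a := by
        have := hap.two_le
        omega
      have hne : (2 ∈ insert a s) ↔ (2 ∈ s) := by
        rw [mem_insert]
        constructor
        · rintro (h3 | h3)
          · omega
          · exact h3
        · exact Or.inr
      simp only [hne]
      have h4 : a ≤ (a - 1) ^ 2 := by
        obtain ⟨b, rfl⟩ : ∃ b, a = b + 3 := ⟨a - 3, by omega⟩
        have : b + 3 - 1 = b + 2 := by omega
        rw [this]
        nlinarith
      calc a * ∏ p ∈ s, p ≤ (a - 1) ^ 2 * ((if 2 ∈ s then 2 else 1) * (∏ p ∈ s, p).totient ^ 2) :=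
            Nat.mul_le_mul h4 ih'
        _ = (if 2 ∈ s then 2 else 1) * ((a - 1) * (∏ p ∈ s, p).totient) ^ 2 := by ring

private theorem sqf_le (d : ℕ) (hd : Squarefree d) : d ≤ 2 * d.totient ^ 2 := by
  have h := tot_sq d.primeFactors (fun p hp => Nat.prime_of_mem_primeFactors hp)
  rw [Nat.prod_primeFactors_of_squarefree hd] at h
  refine h.trans ?_
  refine Nat.mul_le_mul_right _ ?_
  split_ifs <;> norm_num

private theorem term_le (d : ℕ) :
    (if Squarefree d then 1 / ((d : ℝ) * (d.totient : ℝ)) else 0) ≤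
      Real.sqrt 2 * (1 / (d : ℝ) ^ (3 / 2 : ℝ)) := by
  split_ifs with hd
  · have hd0 : 0 < d := Nat.pos_of_ne_zero hd.ne_zero
    have hd' : (0 : ℝ) < d := by exact_mod_cast hd0
    have hφ : (0 : ℝ) < d.totient := by exact_mod_cast Nat.totient_pos.2 hd0
    have h1 : (d : ℝ) ≤ 2 * (d.totient : ℝ) ^ 2 := by exact_mod_cast sqf_le d hd
    have h2 : Real.sqrt d ≤ Real.sqrt 2 * d.totient := by
      rw [← Real.sqrt_sq hφ.le, ← Real.sqrt_mul (by norm_num : (0 : ℝ) ≤ 2)]
      exact Real.sqrt_le_sqrt h1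
    have h3 : (d : ℝ) ^ (3 / 2 : ℝ) = d * Real.sqrt d := by
      rw [Real.sqrt_eq_rpow, ← Real.rpow_one_add' hd'.le (by norm_num)]
      norm_num
    have hsd : 0 < Real.sqrt d := Real.sqrt_pos.2 hd'
    rw [h3, mul_one_div, div_le_div_iff₀ (by positivity) (by positivity)]
    have h4 : d * Real.sqrt d ≤ d * (Real.sqrt 2 * d.totient) :=
      mul_le_mul_of_nonneg_left h2 hd'.le
    linarith
  · positivity

end C0s

open C0s in
theorem tC0s : S_C0s := by
  have hnn : ∀ d : ℕ, (0 : ℝ) ≤ (if Squarefree d then 1 / ((d : ℝ) * (d.totient : ℝ)) else 0) := by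
    intro d
    split_ifs
    · positivity
    · exact le_rfl
  have hs : Summable fun d : ℕ =>
      (if Squarefree d then 1 / ((d : ℝ) * (d.totient : ℝ)) else 0) := by
    refine Summable.of_nonneg_of_le hnn term_le ?_
    refine Summable.mul_left _ ?_
    exact Real.summable_one_div_nat_rpow.2 (by norm_num)
  refine ⟨hs, ?_⟩
  have h1 := hs.sum_le_tsum {1} (fun d _ => hnn d)
  simpa [c0] using h1

end Pool.Agent.Lib.MP_a260de_nt.CN.A
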