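import Pool.Agent.Lib.MP_a260de_nt.CN.SpecA
import Pool.Agent.Lib.MP_640417_ag.All.Divisor

/-!
# Smooth shifted primes: the combinatorial part
-/

set_option autoImplicit false

namespace Pool.Agent.Lib.MP_a260de_nt.CN.A

open Finset Pool.Agent.Results.MP_00e23e_nt

namespace Cmb

theorem mf {α : Type} (s : Finset α) (P : α → Prop) (inst : DecidablePred P) (a : α) :
    a ∈ @Finset.filter α P inst s ↔ a ∈ s ∧ P a := Finset.mem_filter

theorem dvd_of_modEq {p m : ℕ} (hp : 1 ≤ p) (h : p ≡ 1 [MOD m]) : m ∣ p - 1 :=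
  (Nat.modEq_iff_dvd' hp).mp h.symm

/-- the bad primes, for fixed `e` -/
theorem bad_part (z β : ℝ) (e : ℕ) (he : e.Prime) (hez : (e : ℝ) ≤ z ^ β)
    (Bd : Finset ℕ) (hBd : ∀ p ∈ Bd, p.Prime ∧ (p : ℝ) ≤ z ∧
      ∃ q ∈ (p - 1).primeFactors, z ^ β < (q : ℝ)) :
    ((Sr z β ×ˢ Bd).filter (fun x : ℕ × ℕ => x.2 ≡ 1 [MOD e * x.1])).card ≤
      (bad3 z β e).card := by
  classical
  choose! l hl using fun p (hp : p ∈ Bd) => (hBd p hp).2.2
  have key : ∀ x ∈ (Sr z β ×ˢ Bd).filter (fun x : ℕ × ℕ => x.2 ≡ 1 [MOD e * x.1]),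
      1 ≤ x.1 ∧ e * ((x.2 - 1) / (e * x.1 * l x.2)) * l x.2 * x.1 + 1 = x.2 ∧
        1 ≤ (x.2 - 1) / (e * x.1 * l x.2) := by
    intro x hx
    rw [mem_filter, mem_product] at hx
    obtain ⟨⟨h1, h2⟩, h3⟩ := hx
    obtain ⟨hp, -, -⟩ := hBd _ h2
    obtain ⟨hl1, hl2⟩ := hl _ h2
    have hlp : (l x.2).Prime := Nat.prime_of_mem_primeFactors hl1
    have hldvd : l x.2 ∣ x.2 - 1 := Nat.dvd_of_mem_primeFactors hl1
    have h4 := dvd_of_modEq hp.one_le h3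
    rw [Sr, mem_Ioc] at h1
    have hs1 : 1 ≤ x.1 := by omega
    have hsz : (x.1 : ℝ) ≤ z ^ β := by
      have hz0 : (0 : ℝ) ≤ z ^ β := le_trans (Nat.cast_nonneg e) hez
      exact le_trans (by exact_mod_cast h1.2) (Nat.floor_le hz0)
    have hc1 : Nat.Coprime (l x.2) e := by
      rw [Nat.coprime_primes hlp he]
      intro h
      rw [h] at hl2
      linarith
    have hc2 : Nat.Coprime (l x.2) x.1 := by
      rw [Nat.Prime.coprime_iff_not_dvd hlp]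
      intro h
      have := Nat.le_of_dvd (by omega) h
      have h5 : (l x.2 : ℝ) ≤ (x.1 : ℝ) := by exact_mod_cast this
      linarith
    have h6 : e * x.1 * l x.2 ∣ x.2 - 1 :=
      Nat.Coprime.mul_dvd_of_dvd_of_dvd (Nat.Coprime.mul_left hc1.symm hc2.symm) h4 hldvd
    have hp2 := hp.two_le
    obtain ⟨k, hk⟩ := h6
    have hpos : 0 < e * x.1 * l x.2 := Nat.mul_pos (Nat.mul_pos he.pos (by omega)) hlp.pos
    have hdiv : (x.2 - 1) / (e * x.1 * l x.2) = k := by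
      rw [hk]
      exact Nat.mul_div_cancel_left k hpos
    refine ⟨hs1, ?_, ?_⟩
    · rw [hdiv]
      have : e * k * l x.2 * x.1 = x.2 - 1 := by rw [hk]; ring
      omega
    · rw [hdiv]
      rcases Nat.eq_zero_or_pos k with h0 | h0
      · rw [h0, mul_zero] at hk
        omega
      · exact h0
  refine card_le_card_of_injOn
    (fun x : ℕ × ℕ => (x.1, (x.2 - 1) / (e * x.1 * l x.2), l x.2)) ?_ ?_
  · intro x hx
    have hx' := mem_coe.mp hx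
    obtain ⟨k1, k2, k3⟩ := key x hx'
    rw [mem_filter, mem_product] at hx'
    obtain ⟨⟨h1, h2⟩, h3⟩ := hx'
    obtain ⟨hp, hpz, -⟩ := hBd _ h2
    obtain ⟨hl1, hl2⟩ := hl _ h2
    have hlp : (l x.2).Prime := Nat.prime_of_mem_primeFactors hl1
    have hfl : x.2 ≤ ⌊z⌋₊ := Nat.le_floor hpz
    set k := (x.2 - 1) / (e * x.1 * l x.2) with hk
    have hle : ∀ a b : ℕ, 1 ≤ b → a ≤ b * a := fun a b hb => Nat.le_mul_of_pos_left a hb
    have hek : 1 ≤ e * k := Nat.mul_pos he.pos k3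
    have hekl : 1 ≤ e * k * l x.2 := Nat.mul_pos hek hlp.pos
    have b1 : x.1 ≤ e * k * l x.2 * x.1 := Nat.le_mul_of_pos_left _ hekl
    have b2 : l x.2 ≤ e * k * l x.2 * x.1 :=
      le_trans (Nat.le_mul_of_pos_left _ hek) (Nat.le_mul_of_pos_right _ k1)
    have b3 : k ≤ e * k * l x.2 * x.1 :=
      le_trans (Nat.le_mul_of_pos_left _ he.pos)
        (le_trans (Nat.le_mul_of_pos_right _ hlp.pos) (Nat.le_mul_of_pos_right _ k1))
    simp only [bad3, coe_filter, mem_product, mem_Icc, Set.mem_ofPred_eq]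
    refine ⟨⟨⟨k1, by omega⟩, ⟨k3, by omega⟩, ⟨hlp.one_le, by omega⟩⟩, h1, hlp, hl2, ?_, ?_⟩
    · rw [k2]; exact hp
    · rw [k2]; exact hpz
  · intro x hx y hy hxy
    obtain ⟨-, k2, -⟩ := key x (mem_coe.mp hx)
    obtain ⟨-, k2', -⟩ := key y (mem_coe.mp hy)
    simp only [Prod.mk.injEq] at hxy
    obtain ⟨e1, e2, e3⟩ := hxy
    refine Prod.ext e1 ?_
    rw [← k2, ← k2', e2, e3, e1]

/-- the good primes -/
theorem good_part (z β : ℝ) (Es G : Finset ℕ) (hG : ∀ p ∈ G, 2 ≤ p) :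
    ∑ e ∈ Es, ∑ s ∈ Sr z β, (G.filter (fun p => p ≡ 1 [MOD e * s])).card ≤
      ∑ p ∈ G, (p - 1).divisors.card ^ 2 := by
  classical
  have h1 : ∑ e ∈ Es, ∑ s ∈ Sr z β, (G.filter (fun p => p ≡ 1 [MOD e * s])).card =
      ∑ p ∈ G, ((Es ×ˢ Sr z β).filter (fun x : ℕ × ℕ => p ≡ 1 [MOD x.1 * x.2])).card := by
    simp only [card_filter]
    rw [← sum_product', sum_comm]
  rw [h1]
  refine sum_le_sum fun p hp => ?_
  rw [sq, ← card_product]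
  refine card_le_card fun x hx => ?_
  rw [mem_filter, mem_product] at hx
  have hp2 := hG p hp
  have h3 := dvd_of_modEq (by omega) hx.2
  rw [mem_product, Nat.mem_divisors, Nat.mem_divisors]
  exact ⟨⟨(Dvd.intro _ rfl).trans h3, by omega⟩, ⟨(Dvd.intro_left _ rfl).trans h3, by omega⟩⟩


theorem core (β ε C1 z : ℝ) (hε : 0 < ε) (hC1 : 0 < C1)
    (hdiv : ∀ m : ℕ, 0 < m → (m.divisors.card : ℝ) ≤ C1 * (m : ℝ) ^ (ε / 2)) (hz : 2 ≤ z)
    (Es : Finset ℕ) (hEs : ∀ e ∈ Es, e.Prime ∧ (e : ℝ) ≤ z ^ β) (G Bd : Finset ℕ)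
    (hG : ∀ p, p ∈ G ↔ p ∈ Icc 1 ⌊z⌋₊ ∧ p.Prime ∧
      ∀ q ∈ (p - 1).primeFactors, (q : ℝ) ≤ z ^ β)
    (hB : ∀ p, p ∈ Bd ↔ p ∈ Icc 1 ⌊z⌋₊ ∧ p.Prime ∧
      ¬ ∀ q ∈ (p - 1).primeFactors, (q : ℝ) ≤ z ^ β) :
    ∑ e ∈ Es, ∑ s ∈ Sr z β, (primeCount z (e * s) 1 : ℝ) ≤ ∑ e ∈ Es, ((bad3 z β e).card : ℝ) +
      C1 ^ 2 * z ^ ε * (G.card : ℝ) := by
  have hz0 : (0 : ℝ) ≤ z := by linarith
  have hsplit : ∀ e s : ℕ, primeCount z (e * s) 1 ≤
      (G.filter (fun p => p ≡ 1 [MOD e * s])).card +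
        (Bd.filter (fun p => p ≡ 1 [MOD e * s])).card := by
    intro e s
    rw [primeCount]
    refine le_trans (card_le_card ?_) (card_union_le _ _)
    intro p hp
    rw [mem_filter] at hp
    rw [mem_union, mem_filter, mem_filter, hG, hB]
    by_cases h : ∀ q ∈ (p - 1).primeFactors, (q : ℝ) ≤ z ^ β
    · exact Or.inl ⟨⟨hp.1, hp.2.1, h⟩, hp.2.2⟩
    · exact Or.inr ⟨⟨hp.1, hp.2.1, h⟩, hp.2.2⟩
  have hBad : ∀ e ∈ Es, ∑ s ∈ Sr z β, (Bd.filter (fun p => p ≡ 1 [MOD e * s])).card ≤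
      (bad3 z β e).card := by
    intro e he
    obtain ⟨he1, he2⟩ := hEs e he
    refine le_trans (le_of_eq ?_) (bad_part z β e he1 he2 Bd ?_)
    · simp only [card_filter]
      rw [sum_product]
    · intro p hp
      rw [hB, mem_Icc] at hp
      refine ⟨hp.2.1, (Nat.le_floor_iff hz0).mp hp.1.2, ?_⟩
      have := hp.2.2
      push Not at this
      exact this
  have hGood := good_part z β Es G (fun p hp => ((hG p).mp hp).2.1.two_le)
  have hG2 : ∑ p ∈ G, (((p - 1).divisors.card ^ 2 : ℕ) : ℝ) ≤ C1 ^ 2 * z ^ ε * (G.card : ℝ) := by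
    have : ∀ p ∈ G, (((p - 1).divisors.card ^ 2 : ℕ) : ℝ) ≤ C1 ^ 2 * z ^ ε := by
      intro p hp
      rw [hG, mem_Icc] at hp
      have hp2 := hp.2.1.two_le
      have hpz : (p : ℝ) ≤ z := (Nat.le_floor_iff hz0).mp hp.1.2
      have h1 := hdiv (p - 1) (by omega)
      have h2 : ((p - 1 : ℕ) : ℝ) ≤ z := le_trans (by exact_mod_cast Nat.sub_le p 1) hpz
      have h3 : ((p - 1 : ℕ) : ℝ) ^ (ε / 2) ≤ z ^ (ε / 2) :=
        Real.rpow_le_rpow (Nat.cast_nonneg _) h2 (by positivity)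
      have h4 : (((p - 1).divisors.card : ℕ) : ℝ) ≤ C1 * z ^ (ε / 2) :=
        h1.trans (mul_le_mul_of_nonneg_left h3 hC1.le)
      have h5 : (z ^ (ε / 2)) ^ 2 = z ^ ε := by
        rw [← Real.rpow_natCast, ← Real.rpow_mul hz0]
        congr 1
        push_cast
        ring
      push_cast
      calc (((p - 1).divisors.card : ℕ) : ℝ) ^ 2 ≤ (C1 * z ^ (ε / 2)) ^ 2 :=
            pow_le_pow_left₀ (Nat.cast_nonneg _) h4 2
        _ = C1 ^ 2 * z ^ ε := by rw [mul_pow, h5]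
    calc ∑ p ∈ G, (((p - 1).divisors.card ^ 2 : ℕ) : ℝ) ≤ ∑ _p ∈ G, C1 ^ 2 * z ^ ε :=
          sum_le_sum this
      _ = C1 ^ 2 * z ^ ε * (G.card : ℝ) := by rw [sum_const, nsmul_eq_mul]; ring
  have hN : ∑ e ∈ Es, ∑ s ∈ Sr z β, primeCount z (e * s) 1 ≤
      ∑ e ∈ Es, (bad3 z β e).card + ∑ p ∈ G, (p - 1).divisors.card ^ 2 := by
    calc ∑ e ∈ Es, ∑ s ∈ Sr z β, primeCount z (e * s) 1
        ≤ ∑ e ∈ Es, ∑ s ∈ Sr z β, ((G.filter (fun p => p ≡ 1 [MOD e * s])).card +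
          (Bd.filter (fun p => p ≡ 1 [MOD e * s])).card) :=
          sum_le_sum fun e _ => sum_le_sum fun s _ => hsplit e s
      _ = ∑ e ∈ Es, ∑ s ∈ Sr z β, (G.filter (fun p => p ≡ 1 [MOD e * s])).card +
          ∑ e ∈ Es, ∑ s ∈ Sr z β, (Bd.filter (fun p => p ≡ 1 [MOD e * s])).card := by
          simp only [sum_add_distrib]
      _ ≤ ∑ p ∈ G, (p - 1).divisors.card ^ 2 + ∑ e ∈ Es, (bad3 z β e).card :=
          add_le_add hGood (sum_le_sum hBad)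
      _ = _ := add_comm _ _
  have hR : ∑ e ∈ Es, ∑ s ∈ Sr z β, (primeCount z (e * s) 1 : ℝ) ≤
      ∑ e ∈ Es, ((bad3 z β e).card : ℝ) + ∑ p ∈ G, (((p - 1).divisors.card ^ 2 : ℕ) : ℝ) := by
    exact_mod_cast hN
  exact hR.trans (add_le_add le_rfl hG2)

end Cmb

theorem tCmb : S_Cmb := by
  intro β ε hβ hε
  obtain ⟨C1, hC1, hdiv⟩ :=
    Pool.Agent.Lib.MP_640417_ag.All.divisor_bound (ε / 2) (by positivity)
  refine ⟨C1 ^ 2, by positivity, ?_⟩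
  intro z hz Es hEs
  exact Cmb.core β ε C1 z hε hC1 hdiv hz Es hEs _
    (@Finset.filter ℕ (fun p : ℕ => p.Prime ∧ ¬ ∀ q ∈ (p - 1).primeFactors, (q : ℝ) ≤ z ^ β)
      (Classical.decPred _) (Icc 1 ⌊z⌋₊))
    (fun p => Cmb.mf _ _ _ p) (fun p => Cmb.mf _ _ _ p)

end Pool.Agent.Lib.MP_a260de_nt.CN.A
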