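import Pool.Agent.Lib.MP_a260de_nt.CN.SpecA

/-!
MP_a260de_nt, PROJECT CN, part A, module Ech: lower bound for the sum of 1/e over the primes e in (N, 2N],
N = ⌊z^θ⌋.
-/

namespace Pool.Agent.Lib.MP_a260de_nt.CN.A

open Finset Pool.Agent.Results.MP_00e23e_nt

namespace Ech

private theorem inv_log_int {a b : ℝ} (ha : 2 ≤ a) (hb : 2 ≤ b) :
    IntervalIntegrable (fun t : ℝ => (Real.log t)⁻¹) MeasureTheory.volume a b := by
  refine ContinuousOn.intervalIntegrable fun t ht => ?_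
  have h1 : 2 ≤ t := by
    rcases le_total a b with h | h
    · rw [Set.uIcc_of_le h] at ht
      exact ha.trans ht.1
    · rw [Set.uIcc_of_ge h] at ht
      exact hb.trans ht.1
  have h2 : 0 < Real.log t := Real.log_pos (by linarith)
  exact ((Real.continuousAt_log (by linarith)).inv₀ h2.ne').continuousWithinAt

/-- the logarithmic integral between `N` and `2 N` -/
private theorem li_sub (N : ℕ) (hN : 2 ≤ N) :
    (N : ℝ) / Real.log (2 * N) ≤ li (2 * N) - li N := by
  have hN' : (2 : ℝ) ≤ (N : ℝ) := by exact_mod_cast hN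
  unfold li
  rw [intervalIntegral.integral_interval_sub_left (inv_log_int le_rfl (by linarith))
    (inv_log_int le_rfl hN')]
  have h1 : ∫ _t in (N : ℝ)..(2 * N), (Real.log (2 * N))⁻¹ ≤ ∫ t in (N : ℝ)..(2 * N), (Real.log t)⁻¹ := by
    refine intervalIntegral.integral_mono_on (by linarith) intervalIntegrable_const
      (inv_log_int hN' (by linarith)) ?_
    intro t ht
    have h2 : 0 < Real.log t := Real.log_pos (by linarith [ht.1])
    exact inv_anti₀ h2 (Real.log_le_log (by linarith [ht.1]) ht.2)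
  rw [intervalIntegral.integral_const, smul_eq_mul] at h1
  refine le_trans (le_of_eq ?_) h1
  rw [div_eq_mul_inv]
  ring

/-- the number of the primes in `(N, 2 N]` -/
private theorem card_eq (N : ℕ) :
    (((Ioc N (2 * N)).filter Nat.Prime).card : ℝ) = BV.npr (2 * N) - BV.npr N := by
  unfold BV.npr
  have h1 : ⌊(2 * N : ℝ)⌋₊ = 2 * N := by
    have : (2 * N : ℝ) = ((2 * N : ℕ) : ℝ) := by push_cast; ring
    rw [this, Nat.floor_natCast]
  rw [h1, Nat.floor_natCast]
  have h2 : (Icc 1 (2 * N)).filter Nat.Prime =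
      (Icc 1 N).filter Nat.Prime ∪ (Ioc N (2 * N)).filter Nat.Prime := by
    ext p
    simp only [mem_filter, mem_union, mem_Icc, mem_Ioc]
    constructor
    · rintro ⟨⟨a, b⟩, c⟩
      by_cases h : p ≤ N
      · exact Or.inl ⟨⟨a, h⟩, c⟩
      · exact Or.inr ⟨⟨by omega, b⟩, c⟩
    · rintro (⟨⟨a, b⟩, c⟩ | ⟨⟨a, b⟩, c⟩)
      · exact ⟨⟨a, by omega⟩, c⟩
      · exact ⟨⟨by omega, b⟩, c⟩
  have h3 : Disjoint ((Icc 1 N).filter Nat.Prime) ((Ioc N (2 * N)).filter Nat.Prime) := by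
    rw [Finset.disjoint_left]
    intro p hp hp'
    simp only [mem_filter, mem_Icc, mem_Ioc] at hp hp'
    omega
  rw [h2, card_union_of_disjoint h3]
  push_cast
  ring

/-- the lower bound for one `N` -/
private theorem low {C : ℝ} (hC : 0 < C)
    (hpnt : ∀ x : ℝ, 3 ≤ x → |BV.npr x - li x| ≤ C * (x / (Real.log x) ^ (2 : ℝ))) (N : ℕ)
    (hN : 3 ≤ N) (hL : 12 * C ≤ Real.log N) (hL1 : 1 ≤ Real.log N) :
    1 / (8 * Real.log N) ≤ ∑ e ∈ (Ioc N (2 * N)).filter Nat.Prime, 1 / (e : ℝ) := by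
  have hN' : (3 : ℝ) ≤ (N : ℝ) := by exact_mod_cast hN
  have hN0 : (0 : ℝ) < (N : ℝ) := by linarith
  set L : ℝ := Real.log N with hLdef
  have hL0 : 0 < L := by linarith
  have hlog2 : Real.log (2 * N) = Real.log 2 + L := by
    rw [Real.log_mul (by norm_num) hN0.ne']
  have hl2 : Real.log 2 ≤ 1 := by
    have := Real.log_two_lt_d9
    linarith
  have hl20 : 0 < Real.log 2 := Real.log_pos (by norm_num)
  have h1 := hpnt (2 * N) (by linarith)
  have h2 := hpnt N hN'
  rw [Real.rpow_two] at h1 h2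
  have h3 := li_sub N (by omega)
  have h4 := abs_le.1 h1
  have h5 := abs_le.1 h2
  have h6 : (2 * (N : ℝ)) / (Real.log (2 * N)) ^ 2 ≤ 2 * N / L ^ 2 := by
    refine div_le_div_of_nonneg_left (by positivity) (by positivity) ?_
    rw [hlog2]
    exact pow_le_pow_left₀ hL0.le (by linarith) 2
  have h7 : (N : ℝ) / (2 * L) ≤ (N : ℝ) / Real.log (2 * N) := by
    refine div_le_div_of_nonneg_left hN0.le (by rw [hlog2]; positivity) ?_
    rw [hlog2]
    linarith
  have h8 : C * ((3 * N) / L ^ 2) ≤ (N : ℝ) / (4 * L) := by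
    rw [← mul_div_assoc, div_le_div_iff₀ (by positivity) (by positivity)]
    have : 12 * C * (N * L) ≤ L * (N * L) := mul_le_mul_of_nonneg_right hL (by positivity)
    nlinarith
  have h9 : (N : ℝ) / (4 * L) ≤ (((Ioc N (2 * N)).filter Nat.Prime).card : ℝ) := by
    rw [card_eq]
    have h10 : C * (2 * N / (Real.log (2 * N)) ^ 2) ≤ C * (2 * N / L ^ 2) :=
      mul_le_mul_of_nonneg_left h6 hC.le
    have h11 : C * (2 * N / L ^ 2) + C * (N / L ^ 2) = C * ((3 * N) / L ^ 2) := by ring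
    have h12 : (N : ℝ) / (2 * L) = N / (4 * L) + N / (4 * L) := by
      field_simp
      norm_num
    linarith [h4.1, h5.2]
  have h13 : (((Ioc N (2 * N)).filter Nat.Prime).card : ℝ) * (1 / (2 * N)) ≤
      ∑ e ∈ (Ioc N (2 * N)).filter Nat.Prime, 1 / (e : ℝ) := by
    rw [← nsmul_eq_mul]
    refine Finset.card_nsmul_le_sum _ _ _ ?_
    intro e he
    simp only [mem_filter, mem_Ioc] at he
    have he0 : (0 : ℝ) < (e : ℝ) := by
      have : 0 < e := by omega
      exact_mod_cast this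
    have he1 : (e : ℝ) ≤ 2 * N := by exact_mod_cast he.1.2
    exact one_div_le_one_div_of_le he0 he1
  refine le_trans ?_ h13
  have h14 : (N : ℝ) / (4 * L) * (1 / (2 * N)) = 1 / (8 * L) := by
    field_simp
    norm_num
  rw [← h14]
  exact mul_le_mul_of_nonneg_right h9 (by positivity)

end Ech

theorem tEch (h1 : BV.PntStmt) : S_Ech := by
  intro θ hθ hθ1
  obtain ⟨C, hC, hpnt⟩ := h1 2 (by norm_num)
  have t1 : Filter.Tendsto (fun z : ℝ => ⌊z ^ θ⌋₊) Filter.atTop Filter.atTop :=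
    tendsto_nat_floor_atTop.comp (tendsto_rpow_atTop hθ)
  have t2 : Filter.Tendsto (fun z : ℝ => Real.log ((⌊z ^ θ⌋₊ : ℕ) : ℝ)) Filter.atTop Filter.atTop :=
    Real.tendsto_log_atTop.comp (tendsto_natCast_atTop_atTop.comp t1)
  have e1 := t1.eventually_ge_atTop 3
  have e2 := t2.eventually_ge_atTop (12 * C)
  have e3 := t2.eventually_ge_atTop 1
  have e4 := Real.tendsto_log_atTop.eventually_ge_atTop 8
  have e5 := Filter.eventually_ge_atTop (1 : ℝ)
  obtain ⟨z0, hz0⟩ := Filter.eventually_atTop.1 (e1.and (e2.and (e3.and (e4.and e5))))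
  refine ⟨z0, fun z hz => ?_⟩
  obtain ⟨a1, a2, a3, a4, a5⟩ := hz0 z hz
  refine le_trans ?_ (Ech.low hC hpnt _ a1 a2 a3)
  have hN0 : (0 : ℝ) < ((⌊z ^ θ⌋₊ : ℕ) : ℝ) := by
    have : 0 < ⌊z ^ θ⌋₊ := by omega
    exact_mod_cast this
  have hle : Real.log ((⌊z ^ θ⌋₊ : ℕ) : ℝ) ≤ Real.log z := by
    refine Real.log_le_log hN0 ?_
    refine (Nat.floor_le (Real.rpow_nonneg (by linarith) _)).trans ?_
    calc z ^ θ ≤ z ^ (1 : ℝ) := Real.rpow_le_rpow_of_exponent_le a5 hθ1
      _ = z := Real.rpow_one z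
  refine one_div_le_one_div_of_le (by linarith) ?_
  nlinarith

end Pool.Agent.Lib.MP_a260de_nt.CN.A
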