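import Pool.Agent.Lib.MP_a260de_nt.CN.SpecA
import Pool.Agent.Lib.TP.Sga

/-!
MP_a260de_nt, PROJECT CN, part A, module GaL: lower bound for the Selberg sum over the squarefree
numbers coprime to `a`.
-/

namespace Pool.Agent.Lib.MP_a260de_nt.CN.A

open Finset Pool.Agent.Results.MP_00e23e_nt

private lemma GaL_fiber (a E l : ℕ) :
    ∑ k ∈ ((Icc 1 E).filter Squarefree).filter (fun k => k.gcd a = l), 1 / (k.totient : ℝ) ≤
      1 / (l.totient : ℝ) * Ga a E := by
  classical
  have key : ∀ k ∈ ((Icc 1 E).filter Squarefree).filter (fun k => k.gcd a = l),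
      l ∣ k ∧ k / l ∈ (Icc 1 E).filter (fun k => Squarefree k ∧ k.Coprime a) ∧
      1 / (k.totient : ℝ) = 1 / (l.totient : ℝ) * (1 / ((k / l).totient : ℝ)) := by
    intro k hk
    obtain ⟨hk1, hk2⟩ := Finset.mem_filter.1 hk
    obtain ⟨hk3, hk4⟩ := Finset.mem_filter.1 hk1
    obtain ⟨hk5, hk6⟩ := Finset.mem_Icc.1 hk3
    have hlk : l ∣ k := hk2 ▸ Nat.gcd_dvd_left k a
    have hla : l ∣ a := hk2 ▸ Nat.gcd_dvd_right k a
    obtain ⟨j, hj⟩ := hlk
    have hl0 : 0 < l := Nat.pos_of_ne_zero (fun h => by rw [hj, h, zero_mul] at hk5; omega)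
    have hj0 : 0 < j := Nat.pos_of_ne_zero (fun h => by rw [hj, h, mul_zero] at hk5; omega)
    have hkj : k / l = j := by rw [hj, Nat.mul_div_cancel_left j hl0]
    have hsq : Squarefree (l * j) := hj ▸ hk4
    have hco : l.Coprime j := Nat.coprime_of_squarefree_mul hsq
    have hja : j.Coprime a := by
      refine Nat.Coprime.symm ?_
      rw [Nat.coprime_comm]
      by_contra hne
      obtain ⟨p, hp, hpj, hpa⟩ := Nat.Prime.not_coprime_iff_dvd.1 hne
      have hpl : p ∣ l := by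
        rw [← hk2]
        exact Nat.dvd_gcd (hj ▸ (dvd_mul_of_dvd_right hpj l)) hpa
      have h1 : p ∣ l.gcd j := Nat.dvd_gcd hpl hpj
      rw [hco] at h1
      exact hp.one_lt.ne' (Nat.dvd_one.1 h1)
    refine ⟨⟨j, hj⟩, ?_, ?_⟩
    · rw [hkj]
      refine Finset.mem_filter.2 ⟨Finset.mem_Icc.2 ⟨hj0, ?_⟩, hsq.of_mul_right, hja⟩
      calc j = 1 * j := (one_mul j).symm
        _ ≤ l * j := Nat.mul_le_mul_right j hl0
        _ = k := hj.symm
        _ ≤ E := hk6
    · rw [hkj, hj, Nat.totient_mul hco]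
      push_cast
      rw [one_div_mul_one_div]
  rw [Finset.sum_congr rfl (fun k hk => (key k hk).2.2), ← Finset.mul_sum]
  refine mul_le_mul_of_nonneg_left ?_ (by positivity)
  have hinj : Set.InjOn (fun k => k / l)
      (((Icc 1 E).filter Squarefree).filter (fun k => k.gcd a = l) : Finset ℕ) := by
    intro k hk k' hk' h
    have h1 := (key k hk).1
    have h2 := (key k' hk').1
    calc k = l * (k / l) := (Nat.mul_div_cancel' h1).symm
      _ = l * (k' / l) := congrArg (fun t => l * t) h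
      _ = k' := Nat.mul_div_cancel' h2
  rw [← Finset.sum_image (f := fun j : ℕ => 1 / (j.totient : ℝ)) hinj]
  unfold Ga
  refine Finset.sum_le_sum_of_subset_of_nonneg ?_ (fun i _ _ => by positivity)
  intro j hj
  obtain ⟨k, hk, rfl⟩ := Finset.mem_image.1 hj
  exact (key k hk).2.1

theorem tGaL (h1 : S_Idp) : S_GaL := by
  classical
  intro a E ha hE
  have hlog := TP.tSga E hE
  have ha0 : (0 : ℝ) < (a : ℝ) := by exact_mod_cast ha
  have hphi : (0 : ℝ) < (a.totient : ℝ) := by exact_mod_cast Nat.totient_pos.2 ha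
  have hmap : ∀ k ∈ (Icc 1 E).filter Squarefree, k.gcd a ∈ a.divisors.filter Squarefree := by
    intro k hk
    obtain ⟨hk3, hk4⟩ := Finset.mem_filter.1 hk
    refine Finset.mem_filter.2 ⟨Nat.mem_divisors.2 ⟨Nat.gcd_dvd_right k a, by omega⟩, ?_⟩
    exact hk4.squarefree_of_dvd (Nat.gcd_dvd_left k a)
  have hG : TP.Gs E ≤ (a : ℝ) / (a.totient : ℝ) * Ga a E := by
    unfold TP.Gs
    rw [← Finset.sum_fiberwise_of_maps_to hmap, h1 a ha, Finset.sum_mul]
    exact Finset.sum_le_sum (fun l _ => GaL_fiber a E l)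
  calc (a.totient : ℝ) / (a : ℝ) * Real.log E
      ≤ (a.totient : ℝ) / (a : ℝ) * ((a : ℝ) / (a.totient : ℝ) * Ga a E) :=
        mul_le_mul_of_nonneg_left (hlog.trans hG) (by positivity)
    _ = Ga a E := by
        field_simp

end Pool.Agent.Lib.MP_a260de_nt.CN.A
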