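import Pool.Agent.Lib.MP_a260de_nt.CN.SpecA

/-!
MP_a260de_nt, PROJECT CN, part A, module GaQ: the quadratic form of the Selberg weights for moduli
coprime to `a` (adapted from Lib/TP/Slq.lean).
-/

namespace Pool.Agent.Lib.MP_a260de_nt.CN.A

open Finset

namespace GaQ

/-- the moduli -/
private def Sq (a : ℕ) (k : ℕ) : Prop := Squarefree k ∧ k.Coprime a

private instance (a : ℕ) : DecidablePred (Sq a) := fun k => by
  unfold Sq
  infer_instance

private theorem Ga_eq (a E : ℕ) :
    Ga a E = ∑ k ∈ (Icc 1 E).filter (Sq a), 1 / (k.totient : ℝ) := by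
  unfold Ga
  refine sum_congr ?_ fun _ _ => rfl
  ext k
  simp only [mem_filter, Sq]

private theorem Slq_mu (m : ℕ) :
    ∑ d ∈ m.divisors, (ArithmeticFunction.moebius d : ℤ) = if m = 1 then 1 else 0 := by
  have h := congrArg (fun f : ArithmeticFunction ℤ => f m)
    ArithmeticFunction.moebius_mul_coe_zeta
  rw [ArithmeticFunction.coe_mul_zeta_apply, ArithmeticFunction.one_apply] at h
  exact h

/-- the inner sum -/
private theorem Slq_inner (l k : ℕ) (hl : Squarefree l) :
    ∑ e ∈ l.divisors.filter (fun e => k ∣ e), (ArithmeticFunction.moebius e : ℤ) =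
      if l = k then ArithmeticFunction.moebius k else 0 := by
  by_cases hk : k ∣ l
  · obtain ⟨m, rfl⟩ := hk
    have hl0 : k * m ≠ 0 := hl.ne_zero
    have hk0 : k ≠ 0 := left_ne_zero_of_mul hl0
    have hm0 : m ≠ 0 := right_ne_zero_of_mul hl0
    have hcop : Nat.Coprime k m := Nat.coprime_of_squarefree_mul hl
    have h1 : (k * m).divisors.filter (fun e => k ∣ e) = m.divisors.image (fun d => k * d) := by
      ext e
      simp only [mem_filter, Nat.mem_divisors, mem_image]
      constructor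
      · rintro ⟨⟨h2, _⟩, ⟨d, rfl⟩⟩
        exact ⟨d, ⟨Nat.dvd_of_mul_dvd_mul_left (Nat.pos_of_ne_zero hk0) h2, hm0⟩, rfl⟩
      · rintro ⟨d, ⟨h2, _⟩, rfl⟩
        exact ⟨⟨Nat.mul_dvd_mul_left k h2, hl0⟩, dvd_mul_right k d⟩
    rw [h1, sum_image (fun a _ b _ hab => Nat.eq_of_mul_eq_mul_left (Nat.pos_of_ne_zero hk0) hab)]
    have h3 : ∀ d ∈ m.divisors, (ArithmeticFunction.moebius (k * d) : ℤ) =
        ArithmeticFunction.moebius k * ArithmeticFunction.moebius d := by
      intro d hd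
      exact ArithmeticFunction.isMultiplicative_moebius.map_mul_of_coprime
        (Nat.Coprime.coprime_dvd_right (Nat.dvd_of_mem_divisors hd) hcop)
    rw [sum_congr rfl h3, ← mul_sum, Slq_mu]
    by_cases hm : m = 1
    · subst hm
      simp
    · have h4 : ¬ k * m = k := by
        intro h5
        apply hm
        have : k * m = k * 1 := by rw [h5, mul_one]
        exact Nat.eq_of_mul_eq_mul_left (Nat.pos_of_ne_zero hk0) this
      simp [hm, h4]
  · have h1 : l.divisors.filter (fun e => k ∣ e) = ∅ := by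
      rw [filter_eq_empty_iff]
      intro e he h2
      exact hk (h2.trans (Nat.dvd_of_mem_divisors he))
    have h2 : ¬ l = k := by
      rintro rfl
      exact hk dvd_rfl
    rw [h1, sum_empty, if_neg h2]

/-- `Gs` is positive -/
private theorem Slq_pos (a E : ℕ) (hE : 1 ≤ E) : 0 < Ga a E := by
  rw [Ga_eq]
  apply sum_pos'
  · intro i _
    positivity
  · refine ⟨1, ?_, ?_⟩
    · simp only [mem_filter, mem_Icc]
      exact ⟨⟨le_rfl, hE⟩, squarefree_one, Nat.coprime_one_left a⟩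
    · simp

private theorem Slq_div (a E e : ℕ) (he : 1 ≤ e) : sla a E e / (e : ℝ) =
    (1 / Ga a E) * ∑ l ∈ (Icc 1 E).filter (Sq a),
      (if e ∣ l then ((ArithmeticFunction.moebius e : ℤ) : ℝ) else 0) * (1 / (l.totient : ℝ)) := by
  unfold sla
  have he0 : (e : ℝ) ≠ 0 := by
    have : e ≠ 0 := by omega
    exact_mod_cast this
  have h1 : (Icc 1 E).filter (fun k => Squarefree k ∧ k.Coprime a ∧ e ∣ k) =
      ((Icc 1 E).filter (Sq a)).filter (fun k => e ∣ k) := by
    ext k
    simp only [mem_filter, Sq, and_assoc]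
  rw [h1, sum_filter]
  have h2 : ∀ l ∈ (Icc 1 E).filter (Sq a),
      (if e ∣ l then ((ArithmeticFunction.moebius e : ℤ) : ℝ) else 0) * (1 / (l.totient : ℝ)) =
      ((ArithmeticFunction.moebius e : ℤ) : ℝ) * (if e ∣ l then 1 / (l.totient : ℝ) else 0) := by
    intro l _
    by_cases h : e ∣ l
    · simp [h]
    · simp [h]
  rw [sum_congr rfl h2, ← mul_sum]
  field_simp

/-- the diagonal variables -/
private theorem Slq_z (a E k : ℕ) (hk : k ∈ Icc 1 E) :
    ∑ e ∈ Icc 1 E, (if k ∣ e then sla a E e / (e : ℝ) else 0) =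
      (1 / Ga a E) * (if Sq a k then
        ((ArithmeticFunction.moebius k : ℤ) : ℝ) * (1 / (k.totient : ℝ)) else 0) := by
  have h1 : ∀ e ∈ Icc 1 E, (if k ∣ e then sla a E e / (e : ℝ) else 0) =
      (1 / Ga a E) * ∑ l ∈ (Icc 1 E).filter (Sq a),
        (if k ∣ e ∧ e ∣ l then ((ArithmeticFunction.moebius e : ℤ) : ℝ) else 0) *
          (1 / (l.totient : ℝ)) := by
    intro e he
    rw [mem_Icc] at he
    by_cases h : k ∣ e
    · rw [if_pos h, Slq_div a E e he.1]
      simp only [h, true_and]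
    · rw [if_neg h]
      simp [h]
  rw [sum_congr rfl h1, ← mul_sum, sum_comm]
  congr 1
  have h2 : ∀ l ∈ (Icc 1 E).filter (Sq a),
      ∑ e ∈ Icc 1 E, (if k ∣ e ∧ e ∣ l then ((ArithmeticFunction.moebius e : ℤ) : ℝ) else 0) *
          (1 / (l.totient : ℝ)) =
        (if l = k then ((ArithmeticFunction.moebius k : ℤ) : ℝ) else 0) * (1 / (l.totient : ℝ)) := by
    intro l hl
    rw [← sum_mul]
    congr 1
    rw [mem_filter, mem_Icc] at hl
    have h3 : (Icc 1 E).filter (fun e => k ∣ e ∧ e ∣ l) = l.divisors.filter (fun e => k ∣ e) := by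
      ext e
      simp only [mem_filter, mem_Icc, Nat.mem_divisors]
      constructor
      · rintro ⟨_, h4, h5⟩
        exact ⟨⟨h5, by omega⟩, h4⟩
      · rintro ⟨⟨h4, h5⟩, h6⟩
        have h7 := Nat.le_of_dvd (by omega) h4
        have h8 : e ≠ 0 := by
          rintro rfl
          exact h5 (zero_dvd_iff.1 h4)
        exact ⟨⟨by omega, by omega⟩, h6, h4⟩
    rw [← sum_filter, h3]
    have h9 := Slq_inner l k hl.2.1
    have h10 := congrArg (fun z : ℤ => (z : ℝ)) h9
    push_cast at h10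
    rw [h10]
  rw [sum_congr rfl h2]
  by_cases hs : Sq a k
  · rw [if_pos hs, sum_eq_single k]
    · rw [if_pos rfl]
    · intro l _ hne
      rw [if_neg hne, zero_mul]
    · intro h
      exact absurd (mem_filter.2 ⟨hk, hs⟩) h
  · rw [if_neg hs]
    apply sum_eq_zero
    intro l hl
    have : ¬ l = k := by
      rintro rfl
      exact hs (mem_filter.1 hl).2
    rw [if_neg this, zero_mul]

private theorem Slq_gcd (a E e e' : ℕ) (he : e ∈ Icc 1 E) (he' : e' ∈ Icc 1 E) :
    sla a E e * sla a E e' / (Nat.lcm e e' : ℝ) =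
      ∑ k ∈ Icc 1 E, (k.totient : ℝ) * ((if k ∣ e then sla a E e / (e : ℝ) else 0) *
        (if k ∣ e' then sla a E e' / (e' : ℝ) else 0)) := by
  rw [mem_Icc] at he he'
  have h0 : (e : ℝ) ≠ 0 := by
    have : e ≠ 0 := by omega
    exact_mod_cast this
  have h0' : (e' : ℝ) ≠ 0 := by
    have : e' ≠ 0 := by omega
    exact_mod_cast this
  have hg : 0 < Nat.gcd e e' := Nat.gcd_pos_of_pos_left _ (by omega)
  have h1 : ((Nat.gcd e e' : ℕ) : ℝ) = ∑ k ∈ Icc 1 E, if k ∣ e ∧ k ∣ e' then (k.totient : ℝ) else 0 := by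
    rw [← Nat.sum_totient (Nat.gcd e e'), ← sum_filter]
    push_cast
    apply sum_congr _ (fun _ _ => rfl)
    ext k
    simp only [mem_filter, mem_Icc, Nat.mem_divisors]
    constructor
    · rintro ⟨h2, _⟩
      have h3 := h2.trans (Nat.gcd_dvd_left e e')
      have h4 := h2.trans (Nat.gcd_dvd_right e e')
      have h5 := Nat.le_of_dvd (by omega) h3
      have h6 : k ≠ 0 := by
        rintro rfl
        have := zero_dvd_iff.1 h3
        omega
      exact ⟨⟨by omega, by omega⟩, h3, h4⟩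
    · rintro ⟨_, h3, h4⟩
      exact ⟨Nat.dvd_gcd h3 h4, by omega⟩
  have h2 : (Nat.lcm e e' : ℝ) = (e : ℝ) * e' / (Nat.gcd e e' : ℝ) := by
    have h3 : (Nat.gcd e e' : ℝ) ≠ 0 := by
      have : Nat.gcd e e' ≠ 0 := by omega
      exact_mod_cast this
    rw [eq_div_iff h3]
    have h4 := Nat.gcd_mul_lcm e e'
    have h5 : ((Nat.gcd e e' * Nat.lcm e e' : ℕ) : ℝ) = ((e * e' : ℕ) : ℝ) := by rw [h4]
    push_cast at h5
    linarith
  have h3 : ∀ k ∈ Icc 1 E, (k.totient : ℝ) * ((if k ∣ e then sla a E e / (e : ℝ) else 0) *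
        (if k ∣ e' then sla a E e' / (e' : ℝ) else 0)) =
      (sla a E e * sla a E e' / ((e : ℝ) * e')) * (if k ∣ e ∧ k ∣ e' then (k.totient : ℝ) else 0) := by
    intro k _
    by_cases ha : k ∣ e
    · by_cases hb : k ∣ e'
      · simp only [ha, hb, if_true, and_self]
        field_simp
      · simp [ha, hb]
    · simp [ha]
  rw [sum_congr rfl h3, ← mul_sum, ← h1, h2]
  have h3 : (Nat.gcd e e' : ℝ) ≠ 0 := by
    have : Nat.gcd e e' ≠ 0 := by omega
    exact_mod_cast this
  field_simp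

end GaQ

open GaQ in
theorem tGaQ : S_GaQ := by
  intro a E hE
  have hG := Slq_pos a E hE
  have h1 : ∑ e ∈ Icc 1 E, ∑ e' ∈ Icc 1 E, sla a E e * sla a E e' / (Nat.lcm e e' : ℝ) =
      ∑ k ∈ Icc 1 E, (k.totient : ℝ) *
        ((∑ e ∈ Icc 1 E, (if k ∣ e then sla a E e / (e : ℝ) else 0)) *
          (∑ e' ∈ Icc 1 E, (if k ∣ e' then sla a E e' / (e' : ℝ) else 0))) := by
    rw [sum_congr rfl fun e he => sum_congr rfl fun e' he' => Slq_gcd a E e e' he he']
    have h2 : ∀ e ∈ Icc 1 E, ∑ e' ∈ Icc 1 E, ∑ k ∈ Icc 1 E, (k.totient : ℝ) *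
        ((if k ∣ e then sla a E e / (e : ℝ) else 0) * (if k ∣ e' then sla a E e' / (e' : ℝ) else 0)) =
        ∑ k ∈ Icc 1 E, ∑ e' ∈ Icc 1 E, (k.totient : ℝ) *
        ((if k ∣ e then sla a E e / (e : ℝ) else 0) * (if k ∣ e' then sla a E e' / (e' : ℝ) else 0)) :=
      fun e _ => sum_comm
    rw [sum_congr rfl h2, sum_comm]
    refine sum_congr rfl fun k _ => ?_
    rw [sum_mul_sum, mul_sum]
    refine sum_congr rfl fun e _ => ?_
    rw [mul_sum]
  rw [h1, sum_congr rfl fun k hk => by rw [Slq_z a E k hk]]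
  have h3 : ∀ k ∈ Icc 1 E, (k.totient : ℝ) *
      ((1 / Ga a E) * (if Sq a k then
        ((ArithmeticFunction.moebius k : ℤ) : ℝ) * (1 / (k.totient : ℝ)) else 0) *
      ((1 / Ga a E) * (if Sq a k then
        ((ArithmeticFunction.moebius k : ℤ) : ℝ) * (1 / (k.totient : ℝ)) else 0))) =
      (1 / Ga a E) ^ 2 * (if Sq a k then 1 / (k.totient : ℝ) else 0) := by
    intro k hk
    rw [mem_Icc] at hk
    by_cases hs : Sq a k
    · simp only [if_pos hs]
      have h4 : (k.totient : ℝ) ≠ 0 := by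
        have : 0 < k.totient := Nat.totient_pos.2 (by omega)
        have h5 : k.totient ≠ 0 := by omega
        exact_mod_cast h5
      have h5 : ((ArithmeticFunction.moebius k : ℤ) : ℝ) ^ 2 = 1 := by
        have h6 := ArithmeticFunction.moebius_sq_eq_one_of_squarefree hs.1
        have h7 := congrArg (fun z : ℤ => (z : ℝ)) h6
        push_cast at h7
        exact h7
      have h6 : (k.totient : ℝ) * (1 / Ga a E * (((ArithmeticFunction.moebius k : ℤ) : ℝ) *
          (1 / (k.totient : ℝ))) * (1 / Ga a E * (((ArithmeticFunction.moebius k : ℤ) : ℝ) *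
          (1 / (k.totient : ℝ))))) = (1 / Ga a E) ^ 2 *
          (((ArithmeticFunction.moebius k : ℤ) : ℝ) ^ 2 *
          ((k.totient : ℝ) * (1 / (k.totient : ℝ))) * (1 / (k.totient : ℝ))) := by ring
      rw [h6, h5, mul_one_div_cancel h4]
      ring
    · simp only [if_neg hs]
      ring
  rw [sum_congr rfl h3, ← mul_sum, ← sum_filter, ← Ga_eq]
  field_simp

end Pool.Agent.Lib.MP_a260de_nt.CN.A
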