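import Pool.Agent.Lib.MP_a260de_nt.CN.SpecA

set_option autoImplicit false

/-! Selberg's weights for moduli coprime to `a` are bounded by 1. -/

namespace Pool.Agent.Lib.MP_a260de_nt.CN.A

open Finset

private lemma GaW_pos (a E : ℕ) (hE : 1 ≤ E) : 0 < Ga a E := by
  unfold Ga
  refine Finset.sum_pos (fun k hk => ?_) ⟨1, ?_⟩
  · have hk1 : 1 ≤ k := (mem_Icc.1 (mem_filter.1 hk).1).1
    have : 0 < k.totient := Nat.totient_pos.2 hk1
    positivity
  · exact mem_filter.2 ⟨mem_Icc.2 ⟨le_rfl, hE⟩, squarefree_one, Nat.coprime_one_left a⟩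

private lemma GaW_one (a E : ℕ) (hE : 1 ≤ E) : sla a E 1 = 1 := by
  have h := GaW_pos a E hE
  have h1 : ∑ k ∈ (Icc 1 E).filter (fun k => Squarefree k ∧ k.Coprime a ∧ 1 ∣ k),
      1 / (k.totient : ℝ) = Ga a E := by
    unfold Ga
    refine sum_congr ?_ fun _ _ => rfl
    ext k
    simp
  unfold sla
  rw [h1]
  simp
  field_simp

private lemma GaW_phi (e l : ℕ) (he : Squarefree e) (hl : l ∣ e) :
    e.totient = l.totient * (e / l).totient := by
  obtain ⟨m, rfl⟩ := hl
  have hl0 : 0 < l := by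
    rcases Nat.eq_zero_or_pos l with h | h
    · subst h
      rw [zero_mul] at he
      exact absurd he not_squarefree_zero
    · exact h
  rw [Nat.mul_div_cancel_left m hl0]
  exact Nat.totient_mul (Nat.coprime_of_squarefree_mul he)

private lemma GaW_key (a E e : ℕ) (he : Squarefree e) :
    (e : ℝ) * ∑ k ∈ (Icc 1 E).filter (fun k => Squarefree k ∧ k.Coprime a ∧ e ∣ k),
      1 / (k.totient : ℝ) ≤ Ga a E := by
  classical
  have he0 : 0 < e := Nat.pos_of_ne_zero he.ne_zero
  set A := (Icc 1 E).filter (fun k => Squarefree k ∧ k.Coprime a ∧ e ∣ k) with hA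
  have hAc : ∀ k ∈ A, k.Coprime a := fun k hk => (mem_filter.1 hk).2.2.1
  have hAm : ∀ k ∈ A, 1 ≤ k ∧ k ≤ E ∧ Squarefree k ∧ e ∣ k := by
    intro k hk
    have h := mem_filter.1 hk
    exact ⟨(mem_Icc.1 h.1).1, (mem_Icc.1 h.1).2, h.2.1, h.2.2.2⟩
  -- properties of the pair
  have hcop : ∀ k ∈ A, e.Coprime (k / e) := by
    intro k hk
    obtain ⟨_, _, hs, j, rfl⟩ := hAm k hk
    rw [Nat.mul_div_cancel_left j he0]
    exact Nat.coprime_of_squarefree_mul hs
  have hk : ∀ k ∈ A, k = e * (k / e) := fun k hk => (Nat.mul_div_cancel' (hAm k hk).2.2.2).symm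
  have hterm : ∀ k ∈ A, (e : ℝ) * (1 / (k.totient : ℝ)) =
      ∑ l ∈ e.divisors, 1 / ((l * (k / e)).totient : ℝ) := by
    intro k hkA
    have hphik : k.totient = e.totient * (k / e).totient := by
      have h := hk k hkA
      calc k.totient = (e * (k / e)).totient := by rw [← h]
        _ = e.totient * (k / e).totient := Nat.totient_mul (hcop k hkA)
    have hq : 0 < k / e := Nat.div_pos (Nat.le_of_dvd (hAm k hkA).1 (hAm k hkA).2.2.2) he0
    have h1 : ∀ l ∈ e.divisors, 1 / ((l * (k / e)).totient : ℝ) =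
        ((e / l).totient : ℝ) * (1 / (k.totient : ℝ)) := by
      intro l hl
      have hld := Nat.dvd_of_mem_divisors hl
      have hl0 : 0 < l := Nat.pos_of_dvd_of_pos hld he0
      have hlc : l.Coprime (k / e) := Nat.Coprime.coprime_dvd_left hld (hcop k hkA)
      rw [Nat.totient_mul hlc, hphik, GaW_phi e l he hld]
      have t1 : (0 : ℝ) < (l.totient : ℝ) := by exact_mod_cast Nat.totient_pos.2 hl0
      have t2 : (0 : ℝ) < ((k / e).totient : ℝ) := by exact_mod_cast Nat.totient_pos.2 hq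
      have t3 : (0 : ℝ) < ((e / l).totient : ℝ) := by
        exact_mod_cast Nat.totient_pos.2 (Nat.div_pos (Nat.le_of_dvd he0 hld) hl0)
      push_cast
      field_simp
    rw [sum_congr rfl h1, ← sum_mul]
    congr 1
    have h2 := Nat.sum_div_divisors e (fun m => (m.totient : ℝ))
    rw [h2]
    have h3 := Nat.sum_totient e
    exact_mod_cast h3.symm
  rw [mul_sum, sum_congr rfl hterm, ← sum_product']
  have hinj : Set.InjOn (fun x : ℕ × ℕ => x.2 * (x.1 / e)) (A ×ˢ e.divisors : Finset (ℕ × ℕ)) := by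
    rintro ⟨k, l⟩ hx ⟨k', l'⟩ hx' heq
    have hx1 := mem_product.1 (mem_coe.1 hx)
    have hx2 := mem_product.1 (mem_coe.1 hx')
    simp only at hx1 hx2 heq
    have g1 : Nat.gcd (l * (k / e)) e = l := by
      rw [Nat.Coprime.gcd_mul_right_cancel l (hcop k hx1.1).symm]
      exact Nat.gcd_eq_left (Nat.dvd_of_mem_divisors hx1.2)
    have g2 : Nat.gcd (l' * (k' / e)) e = l' := by
      rw [Nat.Coprime.gcd_mul_right_cancel l' (hcop k' hx2.1).symm]
      exact Nat.gcd_eq_left (Nat.dvd_of_mem_divisors hx2.2)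
    have hl : l = l' := by rw [← g1, ← g2, heq]
    subst hl
    have hl0 : 0 < l := Nat.pos_of_dvd_of_pos (Nat.dvd_of_mem_divisors hx1.2) he0
    have h3 : k / e = k' / e := Nat.eq_of_mul_eq_mul_left hl0 heq
    have h4 : k = k' := by rw [hk k hx1.1, hk k' hx2.1, h3]
    rw [h4]
  have himg : ∑ x ∈ A ×ˢ e.divisors, 1 / ((x.2 * (x.1 / e)).totient : ℝ) =
      ∑ m ∈ (A ×ˢ e.divisors).image (fun x : ℕ × ℕ => x.2 * (x.1 / e)), 1 / (m.totient : ℝ) := by
    rw [sum_image hinj]
  rw [himg]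
  unfold Ga
  refine sum_le_sum_of_subset_of_nonneg ?_ (fun _ _ _ => by positivity)
  intro m hm
  obtain ⟨⟨k, l⟩, hx, rfl⟩ := mem_image.1 hm
  have hx1 := mem_product.1 hx
  simp only at hx1 ⊢
  have hld := Nat.dvd_of_mem_divisors hx1.2
  have hl0 : 0 < l := Nat.pos_of_dvd_of_pos hld he0
  have hdvd : l * (k / e) ∣ k := by
    conv_rhs => rw [hk k hx1.1]
    exact mul_dvd_mul_right hld _
  obtain ⟨h1, h2, h3, h4⟩ := hAm k hx1.1
  refine mem_filter.2 ⟨mem_Icc.2 ⟨?_, ?_⟩, ?_, ?_⟩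
  · exact Nat.pos_of_dvd_of_pos hdvd h1
  · exact (Nat.le_of_dvd h1 hdvd).trans h2
  · exact h3.squarefree_of_dvd hdvd
  · exact Nat.Coprime.coprime_dvd_left hdvd (hAc k hx1.1)

theorem tGaW : S_GaW := by
  intro a E hE
  refine ⟨GaW_one a E hE, fun e => ?_, fun d hd => ?_⟩
  · have hG := GaW_pos a E hE
    by_cases he : Squarefree e
    · have hkey := GaW_key a E e he
      have hmu : |((ArithmeticFunction.moebius e : ℤ) : ℝ)| = 1 := by
        have h := ArithmeticFunction.abs_moebius_eq_one_of_squarefree he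
        exact_mod_cast h
      have hT : 0 ≤ ∑ k ∈ (Icc 1 E).filter (fun k => Squarefree k ∧ k.Coprime a ∧ e ∣ k),
          1 / (k.totient : ℝ) := sum_nonneg fun _ _ => by positivity
      unfold sla
      rw [abs_mul, abs_div, abs_mul, hmu, mul_one, abs_of_nonneg hT, abs_of_pos hG,
        abs_of_nonneg (Nat.cast_nonneg e : (0 : ℝ) ≤ (e : ℝ)), div_mul_eq_mul_div, div_le_one hG]
      exact hkey
    · have h0 : ArithmeticFunction.moebius e = 0 :=
        ArithmeticFunction.moebius_eq_zero_of_not_squarefree he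
      unfold sla
      rw [h0]
      simp
  · by_contra hc
    apply hd
    unfold sla
    have h0 : (Icc 1 E).filter (fun k => Squarefree k ∧ k.Coprime a ∧ d ∣ k) = ∅ := by
      refine filter_eq_empty_iff.2 fun k _ hk => ?_
      exact hc (Nat.Coprime.coprime_dvd_left hk.2.2 hk.2.1)
    rw [h0, sum_empty, mul_zero]

end Pool.Agent.Lib.MP_a260de_nt.CN.A
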