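import Pool.Agent.Lib.MP_a260de_nt.CN.SpecA

/-!
MP_a260de_nt, PROJECT CN, part A, module Idp (helper80): n/φ(n) as a sum over the squarefree divisors.
-/

namespace Pool.Agent.Lib.MP_a260de_nt.CN.A

open Finset

namespace Idp

private theorem tot_prod (t : Finset ℕ) (h : ∀ p ∈ t, p.Prime) :
    ((∏ p ∈ t, p).totient : ℝ) = ∏ p ∈ t, ((p : ℝ) - 1) := by
  induction t using Finset.induction_on with
  | empty => simp
  | insert a s ha ih =>
    have hap : a.Prime := h a (mem_insert_self a s)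
    have hs : ∀ p ∈ s, p.Prime := fun p hp => h p (mem_insert_of_mem hp)
    have hcop : Nat.Coprime a (∏ p ∈ s, p) := by
      refine Nat.Coprime.prod_right fun p hp => ?_
      exact (Nat.coprime_primes hap (hs p hp)).2 (fun hne => ha (hne ▸ hp))
    rw [prod_insert ha, prod_insert ha, Nat.totient_mul hcop, Nat.totient_prime hap]
    push_cast
    rw [ih hs, Nat.cast_sub hap.one_lt.le]
    simp

end Idp

open Idp in
theorem tIdp : S_Idp := by
  intro n hn
  have hn0 : n ≠ 0 := by omega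
  have h1 : (n.totient : ℝ) * ∏ p ∈ n.primeFactors, (p : ℝ) =
      n * ∏ p ∈ n.primeFactors, ((p : ℝ) - 1) := by
    have h := Nat.totient_mul_prod_primeFactors n
    have h' : ((n.totient * ∏ p ∈ n.primeFactors, p : ℕ) : ℝ) =
        ((n * ∏ p ∈ n.primeFactors, (p - 1) : ℕ) : ℝ) := by rw [h]
    push_cast at h'
    rw [h']
    congr 1
    refine prod_congr rfl fun p hp => ?_
    rw [Nat.cast_sub (Nat.prime_of_mem_primeFactors hp).one_lt.le]
    simp
  have hφ : (0 : ℝ) < n.totient := by exact_mod_cast Nat.totient_pos.2 hn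
  have hp1 : ∀ p ∈ n.primeFactors, (0 : ℝ) < (p : ℝ) - 1 := by
    intro p hp
    have h2 : (1 : ℝ) < p := by exact_mod_cast (Nat.prime_of_mem_primeFactors hp).one_lt
    linarith
  have hP : (0 : ℝ) < ∏ p ∈ n.primeFactors, ((p : ℝ) - 1) := prod_pos hp1
  have h2 : (n : ℝ) / n.totient = ∏ p ∈ n.primeFactors, (1 + 1 / ((p : ℝ) - 1)) := by
    have h3 : ∏ p ∈ n.primeFactors, (1 + 1 / ((p : ℝ) - 1)) =
        (∏ p ∈ n.primeFactors, (p : ℝ)) / ∏ p ∈ n.primeFactors, ((p : ℝ) - 1) := by
      rw [← prod_div_distrib]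
      refine prod_congr rfl fun p hp => ?_
      have := (hp1 p hp).ne'
      field_simp
      ring
    rw [h3, div_eq_div_iff hφ.ne' hP.ne']
    rw [← h1]
    ring
  rw [h2, Finset.prod_one_add, Nat.sum_divisors_filter_squarefree hn0, Nat.factors_eq]
  refine sum_congr rfl fun t ht => ?_
  rw [t.prod_val, Function.id_def]
  have hsub : t ⊆ n.primeFactors := mem_powerset.mp ht
  rw [tot_prod t (fun p hp => Nat.prime_of_mem_primeFactors (hsub hp))]
  simp

end Pool.Agent.Lib.MP_a260de_nt.CN.A
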