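import Pool.Agent.Lib.MP_a260de_nt.CN.SpecA

/-!
MP_a260de_nt, PROJECT CN, module In2: the sum of 1/s over (Y/2, Y].
-/

set_option autoImplicit false

namespace Pool.Agent.Lib.MP_a260de_nt.CN.A

open Finset

private theorem In2_tel (a b : ℕ) (ha : 1 ≤ a) (hab : a ≤ b) :
    ∑ s ∈ Ioc a b, 1 / (s : ℝ) ≤ Real.log b - Real.log a := by
  induction b, hab using Nat.le_induction with
  | base => simp
  | succ b hb ih =>
    rw [Finset.sum_Ioc_succ_top (by omega)]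
    have hb0 : (0 : ℝ) < b := by exact_mod_cast lt_of_lt_of_le ha hb
    have h1 : (0 : ℝ) < ((b : ℝ) + 1) / b := by positivity
    have h2 := Real.one_sub_inv_le_log_of_pos h1
    rw [Real.log_div (by positivity) hb0.ne'] at h2
    have h3 : 1 - (((b : ℝ) + 1) / b)⁻¹ = 1 / ((b + 1 : ℕ) : ℝ) := by
      push_cast
      field_simp
      ring
    rw [h3] at h2
    push_cast at h2 ih ⊢
    linarith

theorem tIn2 : S_In2 := by
  intro ε hε
  have hl : (0 : ℝ) < Real.log 2 := Real.log_pos (by norm_num)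
  refine ⟨max 2 (⌈1 / (ε * Real.log 2)⌉₊ + 1), fun Y hY => ?_⟩
  have hY2 : 2 ≤ Y := (le_max_left _ _).trans hY
  have hY3 : ⌈1 / (ε * Real.log 2)⌉₊ + 1 ≤ Y := (le_max_right _ _).trans hY
  have h1 := In2_tel (Y / 2) Y (by omega) (Nat.div_le_self _ _)
  have hYr : (2 : ℝ) ≤ Y := by exact_mod_cast hY2
  have h4 : ((Y : ℝ) - 1) / 2 ≤ ((Y / 2 : ℕ) : ℝ) := by
    have h5 : Y ≤ 2 * (Y / 2) + 1 := by omega
    have h6 : (Y : ℝ) ≤ 2 * ((Y / 2 : ℕ) : ℝ) + 1 := by exact_mod_cast h5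
    linarith
  have h7 : (0 : ℝ) < ((Y : ℝ) - 1) / 2 := by linarith
  have h8 : Real.log (((Y : ℝ) - 1) / 2) ≤ Real.log ((Y / 2 : ℕ) : ℝ) := Real.log_le_log h7 h4
  rw [Real.log_div (by linarith) (by norm_num)] at h8
  have h9 : Real.log ((Y : ℝ) / (Y - 1)) ≤ (Y : ℝ) / (Y - 1) - 1 :=
    Real.log_le_sub_one_of_pos (by apply div_pos <;> linarith)
  rw [Real.log_div (by linarith) (by linarith)] at h9
  have h10 : (Y : ℝ) / (Y - 1) - 1 = 1 / (Y - 1) := by
    have : (Y : ℝ) - 1 ≠ 0 := by linarith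
    field_simp
    ring
  have h11 : 1 / ((Y : ℝ) - 1) ≤ ε * Real.log 2 := by
    have h12 : 1 / (ε * Real.log 2) ≤ (Y : ℝ) - 1 := by
      have h13 := Nat.le_ceil (1 / (ε * Real.log 2))
      have h14 : ((⌈1 / (ε * Real.log 2)⌉₊ : ℕ) : ℝ) + 1 ≤ Y := by exact_mod_cast hY3
      linarith
    rw [div_le_iff₀ (by positivity)] at h12
    rw [div_le_iff₀ (by linarith)]
    linarith
  linarith

end Pool.Agent.Lib.MP_a260de_nt.CN.A
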