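import Pool.Agent.Lib.MP_a260de_nt.CN.SpecA
import Pool.Agent.Lib.EH.Basic

/-!
MP_a260de_nt, CN part A, module N1: the lower bound from Bombieri-Vinogradov.
-/

namespace Pool.Agent.Lib.MP_a260de_nt.CN.A

open Finset Pool.Agent.Results.MP_00e23e_nt Filter

namespace N1

theorem li_ge {z : ℝ} (hz : 2 ≤ z) : (z - 2) / Real.log z ≤ li z := by
  have hint : IntervalIntegrable (fun t => (Real.log t)⁻¹) MeasureTheory.volume 2 z := by
    apply ContinuousOn.intervalIntegrable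
    intro t ht
    rw [Set.uIcc_of_le hz] at ht
    have ht2 : 2 ≤ t := ht.1
    apply ContinuousAt.continuousWithinAt
    apply ContinuousAt.inv₀
    · exact Real.continuousAt_log (by linarith)
    · exact (Real.log_pos (by linarith)).ne'
  have h1 : ∫ _t in (2 : ℝ)..z, (Real.log z)⁻¹ ≤ ∫ t in (2 : ℝ)..z, (Real.log t)⁻¹ := by
    apply intervalIntegral.integral_mono_on hz (by simp) hint
    intro t ht
    have ht0 : 0 < Real.log t := Real.log_pos (by linarith [ht.1])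
    exact inv_anti₀ ht0 (Real.log_le_log (by linarith [ht.1]) ht.2)
  rw [intervalIntegral.integral_const, smul_eq_mul] at h1
  unfold li
  rw [div_eq_mul_inv]
  exact h1

theorem card_le {θ z : ℝ} (hθ : 0 < θ) (hz : 1 < z) (Es : Finset ℕ)
    (hE : ∀ e ∈ Es, e.Prime ∧ z ^ θ < (e : ℝ)) (d : ℕ) (hd : 1 ≤ d) (hdz : (d : ℝ) ≤ z) :
    ((Es.filter (fun e => e ∣ d)).card : ℝ) ≤ 1 / θ := by
  set T := Es.filter (fun e => e ∣ d) with hT
  have h1 : ∏ e ∈ T, e ∣ d := Finset.prod_primes_dvd d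
    (fun e he => ((hE e (mem_filter.1 he).1).1).prime) (fun e he => (mem_filter.1 he).2)
  have h2 : ∏ e ∈ T, e ≤ d := Nat.le_of_dvd hd h1
  have h3 : (z ^ θ) ^ T.card ≤ ∏ e ∈ T, (e : ℝ) := by
    rw [← Finset.prod_const]
    exact Finset.prod_le_prod (fun e _ => by positivity)
      (fun e he => (hE e (mem_filter.1 he).1).2.le)
  have h4 : (z ^ θ) ^ T.card ≤ z ^ (1 : ℝ) := by
    rw [Real.rpow_one]
    calc (z ^ θ) ^ T.card ≤ ∏ e ∈ T, (e : ℝ) := h3
      _ = ((∏ e ∈ T, e : ℕ) : ℝ) := by push_cast; rfl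
      _ ≤ (d : ℝ) := by exact_mod_cast h2
      _ ≤ z := hdz
  rw [← Real.rpow_natCast, ← Real.rpow_mul (by linarith)] at h4
  have h5 : θ * T.card ≤ 1 := (Real.rpow_le_rpow_left_iff hz).1 h4
  rw [le_div_iff₀ hθ]
  linarith

theorem sum_le (Es Ss : Finset ℕ) (D : ℕ) (M : ℝ) (f : ℕ → ℝ) (hf : ∀ d, 0 ≤ f d)
    (h1 : ∀ e ∈ Es, ∀ s ∈ Ss, 1 ≤ e * s ∧ e * s ≤ D) (he0 : ∀ e ∈ Es, 1 ≤ e)
    (hM : ∀ d ∈ Icc 1 D, ((Es.filter (fun e => e ∣ d)).card : ℝ) ≤ M) :
    ∑ e ∈ Es, ∑ s ∈ Ss, f (e * s) ≤ M * ∑ d ∈ Icc 1 D, f d := by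
  have h2 : ∀ e ∈ Es, ∑ s ∈ Ss, f (e * s) ≤ ∑ d ∈ (Icc 1 D).filter (fun d => e ∣ d), f d := by
    intro e he
    have h3 : ∑ s ∈ Ss, f (e * s) = ∑ d ∈ Ss.image (fun s => e * s), f d := by
      rw [Finset.sum_image]
      intro a _ b _ hab
      exact Nat.eq_of_mul_eq_mul_left (he0 e he) hab
    rw [h3]
    refine Finset.sum_le_sum_of_subset_of_nonneg ?_ (fun d _ _ => hf d)
    intro d hd
    obtain ⟨s, hs, rfl⟩ := Finset.mem_image.1 hd
    rw [mem_filter, mem_Icc]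
    exact ⟨h1 e he s hs, Dvd.intro s rfl⟩
  calc ∑ e ∈ Es, ∑ s ∈ Ss, f (e * s)
      ≤ ∑ e ∈ Es, ∑ d ∈ (Icc 1 D).filter (fun d => e ∣ d), f d := Finset.sum_le_sum h2
    _ = ∑ d ∈ Icc 1 D, ∑ e ∈ Es.filter (fun e => e ∣ d), f d := by
        simp only [sum_filter]
        rw [Finset.sum_comm]
    _ = ∑ d ∈ Icc 1 D, ((Es.filter (fun e => e ∣ d)).card : ℝ) * f d := by
        refine Finset.sum_congr rfl fun d _ => ?_
        rw [Finset.sum_const, nsmul_eq_mul]
    _ ≤ ∑ d ∈ Icc 1 D, M * f d :=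
        Finset.sum_le_sum fun d hd => mul_le_mul_of_nonneg_right (hM d hd) (hf d)
    _ = M * ∑ d ∈ Icc 1 D, f d := by rw [mul_sum]

theorem tot_le {e s : ℕ} (he : e.Prime) : (e * s).totient ≤ e * s.totient := by
  by_cases h : e ∣ s
  · rw [Nat.totient_mul_of_prime_of_dvd he h]
  · rw [Nat.totient_mul_of_prime_of_not_dvd he h]
    exact Nat.mul_le_mul_right _ (Nat.sub_le _ _)

/-- lower bound for one modulus -/
theorem pc_ge {z : ℝ} (hz : 2 ≤ z) {e s : ℕ} (he : e.Prime) (hs : 1 ≤ s) :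
    (z - 2) / Real.log z * (1 / (e : ℝ) * (1 / (s.totient : ℝ))) - maxErr z (e * s) ≤
      (primeCount z (e * s) 1 : ℝ) := by
  have hd : 1 ≤ e * s := Nat.mul_pos he.pos hs
  have h1 := Pool.Agent.Lib.EH.le_maxErr z (e * s) 1 le_rfl hd (Nat.coprime_one_left _)
  have h2 : -maxErr z (e * s) ≤ err z (e * s) 1 := by
    have := neg_abs_le (err z (e * s) 1)
    linarith
  unfold err at h2
  have hl : 0 < Real.log z := Real.log_pos (by linarith)
  have h3 : 0 ≤ (z - 2) / Real.log z := div_nonneg (by linarith) hl.le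
  have ht : (0 : ℝ) < ((e * s).totient : ℝ) := by exact_mod_cast Nat.totient_pos.2 hd
  have ht' : (0 : ℝ) < (s.totient : ℝ) := by exact_mod_cast Nat.totient_pos.2 hs
  have he' : (0 : ℝ) < (e : ℝ) := by exact_mod_cast he.pos
  have h4 : (1 : ℝ) / (e : ℝ) * (1 / (s.totient : ℝ)) ≤ 1 / ((e * s).totient : ℝ) := by
    rw [one_div_mul_one_div]
    apply one_div_le_one_div_of_le ht
    exact_mod_cast tot_le he
  have h5 : (z - 2) / Real.log z * (1 / (e : ℝ) * (1 / (s.totient : ℝ))) ≤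
      li z / ((e * s).totient : ℝ) := by
    calc (z - 2) / Real.log z * (1 / (e : ℝ) * (1 / (s.totient : ℝ)))
        ≤ (z - 2) / Real.log z * (1 / ((e * s).totient : ℝ)) := mul_le_mul_of_nonneg_left h4 h3
      _ ≤ li z * (1 / ((e * s).totient : ℝ)) :=
          mul_le_mul_of_nonneg_right (li_ge hz) (by positivity)
      _ = li z / ((e * s).totient : ℝ) := by ring
  linarith

/-- size of `Kf` -/
theorem Kf_bd {z : ℝ} (hz : 32 ≤ z) {D : ℕ} (hD : 1 ≤ D) :
    Real.log (BV.Kf z D) * Real.log (Real.log (BV.Kf z D)) ≤ (Real.log z) ^ 2 := by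
  have hlz : 1 ≤ Real.log z := by
    rw [Real.le_log_iff_exp_le (by linarith)]
    have := Real.exp_one_lt_d9
    linarith
  have hD' : (1 : ℝ) ≤ (D : ℝ) := by exact_mod_cast hD
  have hs : 0 ≤ Real.sqrt z := Real.sqrt_nonneg z
  have hss : Real.sqrt z * Real.sqrt z = z := Real.mul_self_sqrt (by linarith)
  have h1 : Real.sqrt z / ((D : ℝ) * Real.log z) ≤ Real.sqrt z := by
    apply div_le_self hs
    nlinarith
  have h0 : 0 ≤ Real.sqrt z / ((D : ℝ) * Real.log z) := by positivity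
  have h5 : (5 : ℝ) ≤ Real.sqrt z := by
    apply Real.le_sqrt_of_sq_le
    linarith
  have hK1 : 16 ≤ BV.Kf z D := by
    unfold BV.Kf
    linarith
  have hK2 : BV.Kf z D ≤ z := by
    unfold BV.Kf
    nlinarith
  have hl1 : 1 ≤ Real.log (BV.Kf z D) := by
    rw [Real.le_log_iff_exp_le (by linarith)]
    have := Real.exp_one_lt_d9
    linarith
  have hl2 : Real.log (BV.Kf z D) ≤ Real.log z := Real.log_le_log (by linarith) hK2
  have hl3 : 0 ≤ Real.log (Real.log (BV.Kf z D)) := Real.log_nonneg hl1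
  have hl4 : Real.log (Real.log (BV.Kf z D)) ≤ Real.log z := by
    have := Real.log_le_sub_one_of_pos (x := Real.log (BV.Kf z D)) (by linarith)
    linarith
  calc Real.log (BV.Kf z D) * Real.log (Real.log (BV.Kf z D))
      ≤ Real.log z * Real.log z := mul_le_mul hl2 hl4 hl3 (by linarith)
    _ = (Real.log z) ^ 2 := by ring

end N1

open N1 in
theorem tN1 (h1 : BV.ExtStmt) (h2 : S_C0s) (h3 : S_PhL) : S_N1 := by
  intro β η ε A hβ hη hβη hε hA
  obtain ⟨θ, hθdef⟩ : ∃ θ : ℝ, θ = 1 / 2 - β - η := ⟨_, rfl⟩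
  have hθ : 0 < θ := by rw [hθdef]; linarith
  have hc0 : 0 ≤ c0 := by linarith [h2.2]
  obtain ⟨ε1, hε1⟩ : ∃ ε1 : ℝ, ε1 = min ε 1 := ⟨_, rfl⟩
  have hε1p : 0 < ε1 := by rw [hε1]; exact lt_min hε one_pos
  have hε1e : ε1 ≤ ε := by rw [hε1]; exact min_le_left _ _
  have hε11 : ε1 ≤ 1 := by rw [hε1]; exact min_le_right _ _
  obtain ⟨Y0, hY0⟩ := h3 (ε1 / 2) (half_pos hε1p)
  obtain ⟨C, hC⟩ := h1 (A + 1) (by linarith)
  obtain ⟨C', hC'⟩ : ∃ C' : ℝ, C' = max C 1 / θ := ⟨_, rfl⟩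
  have hC'p : 0 < C' := by
    rw [hC']
    exact div_pos (lt_of_lt_of_le one_pos (le_max_right _ _)) hθ
  -- conditions on z
  have ev1 : ∀ᶠ z : ℝ in atTop, 2 * C' ≤ Real.log z :=
    Real.tendsto_log_atTop.eventually_ge_atTop _
  have ev2 : ∀ᶠ z : ℝ in atTop, 4 * C' * (Real.log z) ^ (A + 2) ≤ z ^ η := by
    have h4 := (isLittleO_log_rpow_rpow_atTop (A + 2) hη).bound
      (show (0 : ℝ) < 1 / (4 * C') by positivity)
    filter_upwards [h4, eventually_ge_atTop (1 : ℝ)] with z hz hz1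
    have hl : 0 ≤ Real.log z := Real.log_nonneg hz1
    rw [Real.norm_eq_abs, Real.norm_eq_abs, abs_of_nonneg (Real.rpow_nonneg hl _),
      abs_of_nonneg (Real.rpow_nonneg (by linarith) _)] at hz
    calc 4 * C' * (Real.log z) ^ (A + 2) ≤ 4 * C' * (1 / (4 * C') * z ^ η) := by gcongr
      _ = z ^ η := by field_simp
  have ev3 : ∀ᶠ z : ℝ in atTop, Y0 ≤ ⌊z ^ β⌋₊ :=
    (tendsto_nat_floor_atTop.comp (tendsto_rpow_atTop hβ)).eventually_ge_atTop _
  obtain ⟨z0, hz0⟩ := eventually_atTop.1 ((ev1.and (ev2.and ev3)).and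
    (eventually_ge_atTop (max 32 (4 / ε1))))
  refine ⟨z0, fun z hz Es hEs => ?_⟩
  obtain ⟨⟨hz1, hz2, hz3⟩, hz4⟩ := hz0 z hz
  have hz32 : 32 ≤ z := (le_max_left _ _).trans hz4
  have hzε : 4 / ε1 ≤ z := (le_max_right _ _).trans hz4
  have hzp : 0 < z := by linarith
  have hlp : 1 ≤ Real.log z := by
    rw [Real.le_log_iff_exp_le (by linarith)]
    have := Real.exp_one_lt_d9
    linarith
  have hEp : ∀ e ∈ Es, e.Prime ∧ z ^ θ < (e : ℝ) := by
    intro e he
    refine ⟨(hEs e he).1, ?_⟩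
    rw [hθdef]
    have h4 : ⌊z ^ (1 / 2 - β - η)⌋₊ + 1 ≤ e := (hEs e he).2.1
    have h5 := Nat.lt_floor_add_one (z ^ (1 / 2 - β - η))
    have h6 : ((⌊z ^ (1 / 2 - β - η)⌋₊ : ℝ) + 1) ≤ (e : ℝ) := by exact_mod_cast h4
    linarith
  obtain ⟨E0, hE0⟩ : ∃ E0 : ℕ, E0 = ⌊z ^ (1 / 2 - β - η)⌋₊ := ⟨_, rfl⟩
  obtain ⟨Y, hY⟩ : ∃ Y : ℕ, Y = ⌊z ^ β⌋₊ := ⟨_, rfl⟩
  obtain ⟨D, hD⟩ : ∃ D : ℕ, D = max 1 (2 * E0 * Y) := ⟨_, rfl⟩
  have hD1 : 1 ≤ D := by rw [hD]; exact le_max_left _ _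
  have hE0r : (E0 : ℝ) ≤ z ^ θ := by
    rw [hE0, hθdef]
    exact Nat.floor_le (by positivity)
  have hYr : (Y : ℝ) ≤ z ^ β := by
    rw [hY]
    exact Nat.floor_le (by positivity)
  have hDr : (D : ℝ) ≤ 2 * z ^ (1 / 2 - η) := by
    have h5 : z ^ θ * z ^ β = z ^ (1 / 2 - η) := by
      rw [← Real.rpow_add hzp, hθdef]
      ring_nf
    have h6 : (1 : ℝ) ≤ z ^ (1 / 2 - η) := Real.one_le_rpow (by linarith) (by linarith)
    rw [hD]
    push_cast
    apply max_le
    · linarith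
    · calc 2 * (E0 : ℝ) * (Y : ℝ) ≤ 2 * z ^ θ * z ^ β := by gcongr
        _ = 2 * z ^ (1 / 2 - η) := by rw [← h5]; ring
  have hDz : (D : ℝ) ≤ z := by
    have h5 : z ^ (1 / 2 - η) ≤ z ^ ((1 : ℝ) / 2) :=
      Real.rpow_le_rpow_of_exponent_le (by linarith) (by linarith)
    rw [← Real.sqrt_eq_rpow] at h5
    have hss : Real.sqrt z * Real.sqrt z = z := Real.mul_self_sqrt hzp.le
    have h6 : (5 : ℝ) ≤ Real.sqrt z := by
      apply Real.le_sqrt_of_sq_le
      linarith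
    nlinarith
  have hrange : ∀ e ∈ Es, ∀ s ∈ Sr z β, 1 ≤ e * s ∧ e * s ≤ D := by
    intro e he s hs
    unfold Sr at hs
    rw [mem_Ioc, ← hY] at hs
    refine ⟨Nat.mul_pos (hEs e he).1.pos (by omega), ?_⟩
    rw [hD]
    refine le_max_of_le_right ?_
    rw [hE0]
    exact Nat.mul_le_mul (hEs e he).2.2 hs.2
  have herr : ∑ e ∈ Es, ∑ s ∈ Sr z β, maxErr z (e * s) ≤ z / (Real.log z) ^ A := by
    have h4 := sum_le Es (Sr z β) D (1 / θ) (fun d => maxErr z d)
      (fun d => Pool.Agent.Lib.EH.maxErr_nonneg z d) hrange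
      (fun e he => (hEs e he).1.pos) (fun d hd => by
        rw [mem_Icc] at hd
        refine card_le hθ (by linarith) Es hEp d hd.1 ?_
        have : (d : ℝ) ≤ (D : ℝ) := by exact_mod_cast hd.2
        linarith)
    have h5 := hC z D (fun _ => z) (by linarith) hD1 (fun _ => ⟨by linarith, le_rfl⟩)
    have hK := Kf_bd hz32 hD1
    have hs : 0 ≤ Real.sqrt z := Real.sqrt_nonneg z
    have hnn : 0 ≤ ∑ d ∈ Icc 1 D, maxErr z d :=
      Finset.sum_nonneg fun d _ => Pool.Agent.Lib.EH.maxErr_nonneg z d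
    have h6 : Real.sqrt z * D * (Real.log (BV.Kf z D) * Real.log (Real.log (BV.Kf z D))) ≤
        2 * z ^ (1 - η) * (Real.log z) ^ 2 := by
      have h7 : Real.sqrt z * D ≤ 2 * z ^ (1 - η) := by
        calc Real.sqrt z * D ≤ Real.sqrt z * (2 * z ^ (1 / 2 - η)) := by gcongr
          _ = 2 * z ^ (1 - η) := by
            rw [Real.sqrt_eq_rpow]
            have : z ^ ((1 : ℝ) / 2) * z ^ (1 / 2 - η) = z ^ (1 - η) := by
              rw [← Real.rpow_add hzp]
              ring_nf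
            rw [← this]
            ring
      calc Real.sqrt z * D * (Real.log (BV.Kf z D) * Real.log (Real.log (BV.Kf z D)))
          ≤ Real.sqrt z * D * (Real.log z) ^ 2 :=
            mul_le_mul_of_nonneg_left hK (by positivity)
        _ ≤ 2 * z ^ (1 - η) * (Real.log z) ^ 2 := by gcongr
    have h7 : ∑ d ∈ Icc 1 D, maxErr z d ≤
        max C 1 * (z / (Real.log z) ^ (A + 1) + 2 * z ^ (1 - η) * (Real.log z) ^ 2) := by
      have h8 : 0 ≤ z / (Real.log z) ^ (A + 1) +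
          Real.sqrt z * D * (Real.log (BV.Kf z D) * Real.log (Real.log (BV.Kf z D))) := by
        by_contra hneg
        push Not at hneg
        have hK16 : 16 ≤ BV.Kf z D := by
          unfold BV.Kf
          have : 0 ≤ Real.sqrt z / ((D : ℝ) * Real.log z) := by positivity
          linarith
        have hl1 : 1 ≤ Real.log (BV.Kf z D) := by
          rw [Real.le_log_iff_exp_le (by linarith)]
          have := Real.exp_one_lt_d9
          linarith
        have h9 : 0 ≤ Real.log (BV.Kf z D) * Real.log (Real.log (BV.Kf z D)) :=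
          mul_nonneg (by linarith) (Real.log_nonneg hl1)
        have h10 : 0 ≤ z / (Real.log z) ^ (A + 1) := by positivity
        have h11 : 0 ≤ Real.sqrt z * D *
          (Real.log (BV.Kf z D) * Real.log (Real.log (BV.Kf z D))) := by positivity
        linarith
      calc ∑ d ∈ Icc 1 D, maxErr z d ≤ C * (z / (Real.log z) ^ (A + 1) +
          Real.sqrt z * D * (Real.log (BV.Kf z D) * Real.log (Real.log (BV.Kf z D)))) := h5
        _ ≤ max C 1 * (z / (Real.log z) ^ (A + 1) +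
          Real.sqrt z * D * (Real.log (BV.Kf z D) * Real.log (Real.log (BV.Kf z D)))) :=
            mul_le_mul_of_nonneg_right (le_max_left _ _) h8
        _ ≤ _ := by
            apply mul_le_mul_of_nonneg_left _ (le_trans zero_le_one (le_max_right _ _))
            linarith
    have h8 : 1 / θ * (max C 1 * (z / (Real.log z) ^ (A + 1) + 2 * z ^ (1 - η) * (Real.log z) ^ 2))
        = C' * (z / (Real.log z) ^ (A + 1)) + C' * (2 * z ^ (1 - η) * (Real.log z) ^ 2) := by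
      rw [hC']
      ring
    have hlA : 0 < (Real.log z) ^ A := by positivity
    have h9 : C' * (z / (Real.log z) ^ (A + 1)) ≤ z / (Real.log z) ^ A / 2 := by
      rw [Real.rpow_add (by linarith), Real.rpow_one]
      have h10 : C' * (z / ((Real.log z) ^ A * Real.log z)) =
          (z / (Real.log z) ^ A) * (C' / Real.log z) := by
        field_simp
      rw [h10]
      have h11 : C' / Real.log z ≤ 1 / 2 := by
        rw [div_le_iff₀ (by linarith)]
        linarith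
      calc (z / (Real.log z) ^ A) * (C' / Real.log z) ≤ (z / (Real.log z) ^ A) * (1 / 2) :=
            mul_le_mul_of_nonneg_left h11 (by positivity)
        _ = _ := by ring
    have h10 : C' * (2 * z ^ (1 - η) * (Real.log z) ^ 2) ≤ z / (Real.log z) ^ A / 2 := by
      have h11 : z = z ^ (1 - η) * z ^ η := by
        rw [← Real.rpow_add hzp]
        simp
      have h12 : (Real.log z) ^ (A + 2) = (Real.log z) ^ A * (Real.log z) ^ 2 := by
        rw [Real.rpow_add (by linarith)]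
        norm_num
      rw [div_div, le_div_iff₀ (by positivity)]
      calc C' * (2 * z ^ (1 - η) * (Real.log z) ^ 2) * ((Real.log z) ^ A * 2)
          = z ^ (1 - η) * (4 * C' * ((Real.log z) ^ A * (Real.log z) ^ 2)) := by ring
        _ = z ^ (1 - η) * (4 * C' * (Real.log z) ^ (A + 2)) := by rw [h12]
        _ ≤ z ^ (1 - η) * z ^ η := by gcongr
        _ = z := h11.symm
    calc ∑ e ∈ Es, ∑ s ∈ Sr z β, maxErr z (e * s) ≤ 1 / θ * ∑ d ∈ Icc 1 D, maxErr z d := h4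
      _ ≤ 1 / θ * (max C 1 * (z / (Real.log z) ^ (A + 1) +
          2 * z ^ (1 - η) * (Real.log z) ^ 2)) :=
          mul_le_mul_of_nonneg_left h7 (by positivity)
      _ ≤ z / (Real.log z) ^ A := by rw [h8]; linarith
  have hsum0 : 0 ≤ ∑ e ∈ Es, 1 / (e : ℝ) := Finset.sum_nonneg fun e _ => by positivity
  have hmain : (1 - ε) * c0 * Real.log 2 * (z / Real.log z) * ∑ e ∈ Es, 1 / (e : ℝ) ≤
      ∑ e ∈ Es, ∑ s ∈ Sr z β, (z - 2) / Real.log z * (1 / (e : ℝ) * (1 / (s.totient : ℝ))) := by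
    have h4 : ∑ e ∈ Es, ∑ s ∈ Sr z β, (z - 2) / Real.log z * (1 / (e : ℝ) * (1 / (s.totient : ℝ))) =
        (z - 2) / Real.log z * (∑ s ∈ Sr z β, 1 / (s.totient : ℝ)) * ∑ e ∈ Es, 1 / (e : ℝ) := by
      rw [mul_sum]
      refine Finset.sum_congr rfl fun e _ => ?_
      rw [mul_sum, sum_mul]
      refine Finset.sum_congr rfl fun s _ => ?_
      ring
    rw [h4]
    apply mul_le_mul_of_nonneg_right _ hsum0
    have h5 : (1 - ε1 / 2) * c0 * Real.log 2 ≤ ∑ s ∈ Sr z β, 1 / (s.totient : ℝ) := by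
      unfold Sr
      exact hY0 _ hz3
    have hl2 : 0 < Real.log 2 := Real.log_pos (by norm_num)
    have h6 : (1 - ε) * c0 * Real.log 2 ≤ (1 - ε1) * c0 * Real.log 2 := by
      have : (1 - ε) ≤ (1 - ε1) := by linarith
      gcongr
    have h7 : (1 - ε1) * z ≤ (z - 2) * (1 - ε1 / 2) := by
      have h8 : 4 ≤ z * ε1 := by
        rw [div_le_iff₀ hε1p] at hzε
        linarith
      nlinarith
    calc (1 - ε) * c0 * Real.log 2 * (z / Real.log z)
        ≤ (1 - ε1) * c0 * Real.log 2 * (z / Real.log z) :=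
          mul_le_mul_of_nonneg_right h6 (by positivity)
      _ = ((1 - ε1) * z) * (c0 * Real.log 2 / Real.log z) := by ring
      _ ≤ ((z - 2) * (1 - ε1 / 2)) * (c0 * Real.log 2 / Real.log z) :=
          mul_le_mul_of_nonneg_right h7 (by positivity)
      _ = (z - 2) / Real.log z * ((1 - ε1 / 2) * c0 * Real.log 2) := by ring
      _ ≤ (z - 2) / Real.log z * ∑ s ∈ Sr z β, 1 / (s.totient : ℝ) :=
          mul_le_mul_of_nonneg_left h5 (div_nonneg (by linarith) (by linarith))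
  have hpc : ∑ e ∈ Es, ∑ s ∈ Sr z β, ((z - 2) / Real.log z * (1 / (e : ℝ) * (1 / (s.totient : ℝ))) -
      maxErr z (e * s)) ≤ ∑ e ∈ Es, ∑ s ∈ Sr z β, (primeCount z (e * s) 1 : ℝ) := by
    refine Finset.sum_le_sum fun e he => Finset.sum_le_sum fun s hs => ?_
    unfold Sr at hs
    rw [mem_Ioc] at hs
    exact pc_ge (by linarith) (hEs e he).1 (by omega)
  simp only [Finset.sum_sub_distrib] at hpc
  linarith

end Pool.Agent.Lib.MP_a260de_nt.CN.A
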