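import Pool.Agent.Lib.MP_a260de_nt.CN.SpecA

/-!
MP_a260de_nt, PROJECT CN, module N2a: the count of s for fixed e, k, l.
-/

namespace Pool.Agent.Lib.MP_a260de_nt.CN.A

open Finset Pool.Agent.Results.MP_00e23e_nt

/-- the quotient for a prime -/
private theorem n2a_pr (ε : ℝ) (hε : 0 < ε) (e : ℕ) (h : 12 / ε + 1 < (e : ℝ)) (he : e.Prime) :
    (e : ℝ) ≤ (1 + ε / 12) * (e.totient : ℝ) := by
  rw [Nat.totient_prime he, Nat.cast_sub he.one_lt.le, Nat.cast_one]
  have h1 : 12 / ε < (e : ℝ) - 1 := by linarith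
  rw [div_lt_iff₀ hε] at h1
  nlinarith

/-- the quotient for the product -/
private theorem n2a_tot (ε : ℝ) (hε : 0 < ε) (hε1 : ε ≤ 1) (e k l : ℕ) (h : 12 / ε + 1 < (e : ℝ))
    (he : e.Prime) (hk : 1 ≤ k) (hl : l.Prime) (h' : 12 / ε + 1 < (l : ℝ)) :
    ((e * k * l : ℕ) : ℝ) / ((e * k * l : ℕ).totient : ℝ) ≤
      (1 + ε / 4) * ((k : ℝ) / (k.totient : ℝ)) := by
  have hk0 : (0 : ℝ) < k.totient := by exact_mod_cast Nat.totient_pos.2 hk
  have he0 : (0 : ℝ) < e.totient := by exact_mod_cast Nat.totient_pos.2 he.pos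
  have hl0 : (0 : ℝ) < l.totient := by exact_mod_cast Nat.totient_pos.2 hl.pos
  have h1 : e.totient * k.totient * l.totient ≤ (e * k * l).totient :=
    le_trans (Nat.mul_le_mul_right _ (Nat.totient_super_multiplicative e k))
      (Nat.totient_super_multiplicative (e * k) l)
  have h2 : (e.totient : ℝ) * k.totient * l.totient ≤ ((e * k * l).totient : ℝ) := by
    exact_mod_cast h1
  have h3 := n2a_pr ε hε e h he
  have h4 := n2a_pr ε hε l h' hl
  have h5 : (0 : ℝ) < (e.totient : ℝ) * k.totient * l.totient := by positivity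
  have hk1 : (0 : ℝ) ≤ k := Nat.cast_nonneg _
  rw [div_le_iff₀ (lt_of_lt_of_le h5 h2)]
  have h6 : ((e * k * l : ℕ) : ℝ) ≤ (1 + ε / 12) * e.totient * k * ((1 + ε / 12) * l.totient) := by
    push_cast
    have hl2 : (0 : ℝ) ≤ l := Nat.cast_nonneg _
    have : (e : ℝ) * k ≤ (1 + ε / 12) * e.totient * k := mul_le_mul_of_nonneg_right h3 hk1
    exact mul_le_mul this h4 hl2 (by positivity)
  have h7 : (1 + ε / 12) * (1 + ε / 12) ≤ 1 + ε / 4 := by nlinarith
  have h8 : (1 + ε / 12) * e.totient * k * ((1 + ε / 12) * l.totient) ≤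
      (1 + ε / 4) * ((k : ℝ) * (e.totient * l.totient)) := by
    have : (1 + ε / 12) * e.totient * k * ((1 + ε / 12) * l.totient) =
      ((1 + ε / 12) * (1 + ε / 12)) * ((k : ℝ) * (e.totient * l.totient)) := by ring
    rw [this]
    exact mul_le_mul_of_nonneg_right h7 (by positivity)
  have h9 : (1 + ε / 4) * ((k : ℝ) * (e.totient * l.totient)) =
      (1 + ε / 4) * ((k : ℝ) / (k.totient : ℝ)) * (e.totient * k.totient * l.totient) := by
    field_simp
  calc ((e * k * l : ℕ) : ℝ) ≤ _ := h6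
    _ ≤ _ := h8
    _ = _ := h9
    _ ≤ _ := mul_le_mul_of_nonneg_left h2 (by positivity)

theorem tN2a (h1 : S_BT) : S_N2a := by
  intro β θ ε hβ hθ hε hε1
  have hb : 0 < β * (1 - ε / 4) / 2 := by
    have : 0 < 1 - ε / 4 := by linarith
    positivity
  have ev : ∀ᶠ z : ℝ in Filter.atTop, 2 ≤ z ∧ 2 ≤ z ^ (β * (1 - ε / 4) / 2) ∧ 2 ≤ z ^ (β / 2) ∧
      12 / ε + 1 ≤ z ^ θ ∧ 12 / ε + 1 ≤ z ^ β ∧ 24 / (β * ε) * Real.log 2 ≤ Real.log z := by
    filter_upwards [Filter.eventually_ge_atTop 2,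
      (tendsto_rpow_atTop hb).eventually_ge_atTop 2,
      (tendsto_rpow_atTop (half_pos hβ)).eventually_ge_atTop 2,
      (tendsto_rpow_atTop hθ).eventually_ge_atTop (12 / ε + 1),
      (tendsto_rpow_atTop hβ).eventually_ge_atTop (12 / ε + 1),
      Real.tendsto_log_atTop.eventually_ge_atTop (24 / (β * ε) * Real.log 2)] with z a b c d f g
    exact ⟨a, b, c, d, f, g⟩
  obtain ⟨z0, hz0⟩ := Filter.eventually_atTop.1 ev
  refine ⟨z0, fun z hz e k l he hez hk hl hlz => ?_⟩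
  obtain ⟨hz2, hE2, hb2, hzt, hzb, hlog⟩ := hz0 z hz
  have hzp : 0 < z := by linarith
  have hz1 : 1 ≤ z := by linarith
  have hL : 0 < Real.log z := Real.log_pos (by linarith)
  set x : ℝ := z ^ (β * (1 - ε / 4) / 2) with hx
  obtain ⟨E, hEdef⟩ : ∃ E : ℕ, E = ⌊x⌋₊ := ⟨_, rfl⟩
  have hEx : (E : ℝ) ≤ x := by rw [hEdef]; exact Nat.floor_le (by linarith)
  have hE : 2 ≤ E := by rw [hEdef]; exact Nat.le_floor (by exact_mod_cast hE2)
  have hxE : x < (E : ℝ) + 1 := by rw [hEdef]; exact Nat.lt_floor_add_one x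
  have ha : 1 ≤ e * k * l := Nat.mul_pos (Nat.mul_pos he.pos hk) hl.pos
  set Y : ℕ := ⌊z ^ β⌋₊ with hY
  have hYz : z ^ β < (Y : ℝ) + 1 := Nat.lt_floor_add_one _
  -- the inclusion
  have hinc : (Sr z β).filter (fun s : ℕ => (e * k * l * s + 1).Prime ∧
      ((e * k * l * s + 1 : ℕ) : ℝ) ≤ z) ⊆
      (Ioc (Y / 2) (Y / 2 + hh z β e k l)).filter
        (fun s : ℕ => (e * k * l * s + 1).Prime ∧ E < e * k * l * s + 1) := by
    intro s hs
    rw [mem_filter] at hs
    obtain ⟨hsr, hp, hsz⟩ := hs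
    rw [Sr, mem_Ioc] at hsr
    have h2 : s - Y / 2 ≤ hh z β e k l := by
      rw [hh, ← Nat.card_Ioc]
      apply card_le_card
      intro s' hs'
      rw [mem_Ioc] at hs'
      rw [mem_filter, Sr, mem_Ioc]
      refine ⟨⟨hs'.1, le_trans hs'.2 hsr.2⟩, ?_⟩
      have h3 : e * k * l * s' ≤ e * k * l * s + 1 :=
        le_trans (Nat.mul_le_mul_left _ hs'.2) (Nat.le_succ _)
      exact le_trans (by exact_mod_cast h3) hsz
    rw [mem_filter, mem_Ioc]
    refine ⟨⟨hsr.1, by omega⟩, hp, ?_⟩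
    have h3 : Y < 2 * s := by
      have := hsr.1
      omega
    have h4 : (Y : ℝ) + 1 ≤ 2 * s := by exact_mod_cast h3
    have h5 : z ^ β = z ^ (β / 2) * z ^ (β / 2) := by
      rw [← Real.rpow_add hzp, add_halves]
    have h6 : x ≤ z ^ (β / 2) := by
      rw [hx]
      apply Real.rpow_le_rpow_of_exponent_le hz1
      nlinarith
    have h7 : (E : ℝ) < s := by
      have h8 : 2 * z ^ (β / 2) ≤ z ^ β := by
        rw [h5]
        exact mul_le_mul_of_nonneg_right hb2 (by linarith)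
      linarith
    have h8 : E < s := by exact_mod_cast h7
    have h9 : s ≤ e * k * l * s := Nat.le_mul_of_pos_left s ha
    omega
  have h2 : (ct z β e k l : ℝ) ≤ (((Ioc (Y / 2) (Y / 2 + hh z β e k l)).filter
      (fun s : ℕ => (e * k * l * s + 1).Prime ∧ E < e * k * l * s + 1)).card : ℝ) := by
    rw [ct]
    exact_mod_cast card_le_card hinc
  have h3 := h1 (e * k * l) E (Y / 2) (hh z β e k l) ha hE
  -- the logarithm
  have hE1 : x / 2 ≤ (E : ℝ) := by
    have : (2 : ℝ) ≤ E := by exact_mod_cast hE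
    linarith
  have hx0 : 0 < x := by linarith
  have hlogE : β / 2 * (1 - ε / 3) * Real.log z ≤ Real.log E := by
    have h4 : Real.log (x / 2) ≤ Real.log E := Real.log_le_log (by linarith) hE1
    rw [Real.log_div hx0.ne' (by norm_num), hx, Real.log_rpow hzp] at h4
    have h5 : Real.log 2 ≤ β * ε / 24 * Real.log z := by
      have h6 : 24 / (β * ε) * Real.log 2 * (β * ε / 24) ≤ Real.log z * (β * ε / 24) :=
        mul_le_mul_of_nonneg_right hlog (by positivity)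
      have h7 : 24 / (β * ε) * Real.log 2 * (β * ε / 24) = Real.log 2 := by
        field_simp
      linarith
    nlinarith
  have hlE0 : 0 < β / 2 * (1 - ε / 3) * Real.log z := by
    have : 0 < 1 - ε / 3 := by linarith
    positivity
  have hq := n2a_tot ε hε hε1 e k l (lt_of_le_of_lt hzt hez) he hk hl (lt_of_le_of_lt hzb hlz)
  have hk0 : (0 : ℝ) < k.totient := by exact_mod_cast Nat.totient_pos.2 hk
  have hk1 : (0 : ℝ) ≤ (k : ℝ) / k.totient := by positivity
  have hH : (0 : ℝ) ≤ hh z β e k l := Nat.cast_nonneg _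
  have h4 : (hh z β e k l : ℝ) * (((e * k * l : ℕ) : ℝ) / ((e * k * l : ℕ).totient : ℝ)) /
      Real.log E ≤ (hh z β e k l : ℝ) * ((1 + ε / 4) * ((k : ℝ) / (k.totient : ℝ))) /
      (β / 2 * (1 - ε / 3) * Real.log z) :=
    div_le_div₀ (by positivity) (mul_le_mul_of_nonneg_left hq hH) hlE0 hlogE
  have h5 : (hh z β e k l : ℝ) * ((1 + ε / 4) * ((k : ℝ) / (k.totient : ℝ))) /
      (β / 2 * (1 - ε / 3) * Real.log z) ≤
      (1 + ε) * (2 / (β * Real.log z)) * ((k : ℝ) / (k.totient : ℝ)) * (hh z β e k l : ℝ) := by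
    rw [div_le_iff₀ hlE0]
    have h6 : (1 + ε) * (2 / (β * Real.log z)) * ((k : ℝ) / (k.totient : ℝ)) *
        (hh z β e k l : ℝ) * (β / 2 * (1 - ε / 3) * Real.log z) =
        ((1 + ε) * (1 - ε / 3)) * (((k : ℝ) / (k.totient : ℝ)) * (hh z β e k l : ℝ)) := by
      have hβ0 := hβ.ne'
      have hL0 := hL.ne'
      field_simp
    rw [h6]
    have h7 : 1 + ε / 4 ≤ (1 + ε) * (1 - ε / 3) := by nlinarith
    have h8 : (hh z β e k l : ℝ) * ((1 + ε / 4) * ((k : ℝ) / (k.totient : ℝ))) =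
        (1 + ε / 4) * (((k : ℝ) / (k.totient : ℝ)) * (hh z β e k l : ℝ)) := by ring
    rw [h8]
    exact mul_le_mul_of_nonneg_right h7 (by positivity)
  have h6 : (E : ℝ) ^ 2 ≤ z ^ (β * (1 - ε / 4)) := by
    have h7 : z ^ (β * (1 - ε / 4)) = x ^ 2 := by
      rw [hx, pow_two, ← Real.rpow_add hzp, add_halves]
    rw [h7]
    exact pow_le_pow_left₀ (Nat.cast_nonneg _) hEx 2
  linarith

end Pool.Agent.Lib.MP_a260de_nt.CN.A
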