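import Pool.Agent.Lib.MP_a260de_nt.CN.SpecA

/-! MP_a260de_nt, project CN, part A, module N2b: the sum over `l`. -/

set_option autoImplicit false

namespace Pool.Agent.Lib.MP_a260de_nt.CN.A

open Finset Pool.Agent.Results.MP_00e23e_nt

private theorem N2b_inner {β ε x1 z : ℝ} (hβ : 0 < β) (hε : 0 < ε) (hz1 : 1 < z)
    (hx1 : x1 ≤ z ^ β) (hpi : ∀ x : ℝ, x1 ≤ x → BV.npr x ≤ (1 + ε) * (x / Real.log x))
    (e k s : ℕ) (he : 1 ≤ e) (hk : 1 ≤ k) (hs : 1 ≤ s) :
    ((((Icc 1 ⌊z⌋₊).filter (fun l : ℕ => l.Prime ∧ z ^ β < (l : ℝ))).filter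
      (fun l : ℕ => ((e * k * l * s : ℕ) : ℝ) ≤ z)).card : ℝ) ≤
      (1 + ε) * z / ((e : ℝ) * k * β * Real.log z) * (1 / (s : ℝ)) := by
  have hlog : 0 < Real.log z := Real.log_pos hz1
  have hz0 : 0 < z := by linarith
  have he' : (0 : ℝ) < e := by exact_mod_cast he
  have hk' : (0 : ℝ) < k := by exact_mod_cast hk
  have hs' : (0 : ℝ) < s := by exact_mod_cast hs
  rcases Finset.eq_empty_or_nonempty (((Icc 1 ⌊z⌋₊).filter (fun l : ℕ => l.Prime ∧ z ^ β < (l : ℝ))).filter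
      (fun l : ℕ => ((e * k * l * s : ℕ) : ℝ) ≤ z)) with h0 | ⟨l, hl⟩
  · rw [h0]
    simp only [Finset.card_empty, Nat.cast_zero]
    positivity
  · rw [Finset.mem_filter, Finset.mem_filter] at hl
    obtain ⟨⟨_, _, hl2⟩, hl3⟩ := hl
    set x := z / ((e : ℝ) * k * s) with hx
    have hden : 0 < (e : ℝ) * k * s := by positivity
    have key : ∀ m : ℕ, ((e * k * m * s : ℕ) : ℝ) ≤ z → (m : ℝ) ≤ x := by
      intro m hm
      rw [hx, le_div_iff₀ hden]
      push_cast at hm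
      linarith
    have hlx : (l : ℝ) ≤ x := key l hl3
    have hxz : z ^ β < x := lt_of_lt_of_le hl2 hlx
    have hx0 : 0 < x := by positivity
    have h1 := hpi x (hx1.trans hxz.le)
    have hlogx : β * Real.log z ≤ Real.log x := by
      have h2 := Real.log_le_log (Real.rpow_pos_of_pos hz0 β) hxz.le
      rwa [Real.log_rpow hz0] at h2
    have hb : 0 < β * Real.log z := by positivity
    have h3 : ((((Icc 1 ⌊z⌋₊).filter (fun l : ℕ => l.Prime ∧ z ^ β < (l : ℝ))).filter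
      (fun l : ℕ => ((e * k * l * s : ℕ) : ℝ) ≤ z)).card : ℝ) ≤ BV.npr x := by
      unfold BV.npr
      have : ((Icc 1 ⌊z⌋₊).filter (fun l : ℕ => l.Prime ∧ z ^ β < (l : ℝ))).filter
          (fun l : ℕ => ((e * k * l * s : ℕ) : ℝ) ≤ z) ⊆ (Icc 1 ⌊x⌋₊).filter Nat.Prime := by
        intro m hm
        rw [Finset.mem_filter, Finset.mem_filter] at hm
        obtain ⟨⟨hm0, hm1, _⟩, hm3⟩ := hm
        rw [Finset.mem_filter, Finset.mem_Icc]
        exact ⟨⟨(Finset.mem_Icc.1 hm0).1, Nat.le_floor (key m hm3)⟩, hm1⟩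
      exact_mod_cast Finset.card_le_card this
    have h4 : x / Real.log x ≤ x / (β * Real.log z) :=
      div_le_div_of_nonneg_left hx0.le hb hlogx
    calc _ ≤ BV.npr x := h3
      _ ≤ (1 + ε) * (x / Real.log x) := h1
      _ ≤ (1 + ε) * (x / (β * Real.log z)) := by
          apply mul_le_mul_of_nonneg_left h4 (by linarith)
      _ = _ := by
          rw [hx]
          field_simp

theorem tN2b (h1 : S_In2) (h2 : S_Pi) : S_N2b := by
  intro β ε hβ hε
  set δ := min ε 1 / 3 with hδ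
  have hδ0 : 0 < δ := by
    have : 0 < min ε 1 := lt_min hε one_pos
    positivity
  have hδ1 : δ ≤ 1 / 3 := by
    have := min_le_right ε 1
    linarith
  have hδε : 3 * δ ≤ ε := by
    have := min_le_left ε 1
    linarith
  obtain ⟨Y0, hY0⟩ := h1 δ hδ0
  obtain ⟨x1, hx1⟩ := h2 δ hδ0
  have ht := tendsto_rpow_atTop hβ
  obtain ⟨z1, hz1⟩ := Filter.eventually_atTop.1 (ht.eventually_ge_atTop (max x1 (Y0 : ℝ)))
  refine ⟨max z1 2, fun z hz e k he hk => ?_⟩
  have hzz : 2 ≤ z := (le_max_right _ _).trans hz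
  have hzβ := hz1 z ((le_max_left _ _).trans hz)
  have hzx : x1 ≤ z ^ β := (le_max_left _ _).trans hzβ
  have hzY : (Y0 : ℝ) ≤ z ^ β := (le_max_right _ _).trans hzβ
  have hYf : Y0 ≤ ⌊z ^ β⌋₊ := Nat.le_floor hzY
  have hlog : 0 < Real.log z := Real.log_pos (by linarith)
  have he' : (0 : ℝ) < e := by exact_mod_cast he
  have hk' : (0 : ℝ) < k := by exact_mod_cast hk
  have hc : 0 ≤ (1 + δ) * z / ((e : ℝ) * k * β * Real.log z) := by
    have : 0 < z := by linarith
    positivity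
  have hsum : ∑ l ∈ (Icc 1 ⌊z⌋₊).filter (fun l : ℕ => l.Prime ∧ z ^ β < (l : ℝ)), (hh z β e k l : ℝ) =
      ∑ s ∈ Sr z β, ((((Icc 1 ⌊z⌋₊).filter (fun l : ℕ => l.Prime ∧ z ^ β < (l : ℝ))).filter
      (fun l : ℕ => ((e * k * l * s : ℕ) : ℝ) ≤ z)).card : ℝ) := by
    unfold hh
    simp only [Finset.card_filter, Nat.cast_sum]
    rw [Finset.sum_comm]
  rw [hsum]
  calc _ ≤ ∑ s ∈ Sr z β, (1 + δ) * z / ((e : ℝ) * k * β * Real.log z) * (1 / (s : ℝ)) := by
        apply Finset.sum_le_sum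
        intro s hs
        unfold Sr at hs
        have hs1 : 1 ≤ s := by
          have := (Finset.mem_Ioc.1 hs).1
          omega
        exact N2b_inner hβ hδ0 (by linarith) hzx hx1 e k s he hk hs1
    _ = (1 + δ) * z / ((e : ℝ) * k * β * Real.log z) * ∑ s ∈ Sr z β, (1 / (s : ℝ)) := by
        rw [Finset.mul_sum]
    _ ≤ (1 + δ) * z / ((e : ℝ) * k * β * Real.log z) * ((1 + δ) * Real.log 2) := by
        apply mul_le_mul_of_nonneg_left _ hc
        exact hY0 _ hYf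
    _ = ((1 + δ) * (1 + δ)) * (Real.log 2 * z / ((e : ℝ) * k * β * Real.log z)) := by ring
    _ ≤ (1 + ε) * (Real.log 2 * z / ((e : ℝ) * k * β * Real.log z)) := by
        apply mul_le_mul_of_nonneg_right _ _
        · nlinarith
        · have : 0 < z := by linarith
          have := Real.log_pos (by norm_num : (1 : ℝ) < 2)
          positivity
    _ = _ := by ring

end Pool.Agent.Lib.MP_a260de_nt.CN.A
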