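import Pool.Agent.Lib.MP_a260de_nt.CN.SpecA

/-! MP_a260de_nt, PROJECT CN, module PhL -/

set_option autoImplicit false

namespace Pool.Agent.Lib.MP_a260de_nt.CN.A

open Finset Pool.Agent.Results.MP_00e23e_nt

/-- The term of the series `c0`. -/
private noncomputable def phlT (d : ℕ) : ℝ :=
  if Squarefree d then 1 / ((d : ℝ) * (d.totient : ℝ)) else 0

private theorem phlT_nonneg (d : ℕ) : 0 ≤ phlT d := by
  unfold phlT; split_ifs
  · positivity
  · exact le_rfl

/-- Harmonic sums. -/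
private theorem phl_harm (A : ℕ) : ∀ B : ℕ, A ≤ B →
    Real.log ((B : ℝ) + 1) - Real.log ((A : ℝ) + 1) ≤ ∑ m ∈ Ioc A B, 1 / (m : ℝ) := by
  intro B hB
  induction B, hB using Nat.le_induction with
  | base => simp
  | succ B hB ih =>
    rw [Finset.sum_Ioc_succ_top (by omega)]
    have h1 : (0 : ℝ) < (B : ℝ) + 1 := by positivity
    have h2 : Real.log (((B + 1 : ℕ) : ℝ) + 1) - Real.log ((B : ℝ) + 1) ≤ 1 / ((B + 1 : ℕ) : ℝ) := by
      rw [← Real.log_div (by positivity) h1.ne']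
      have h3 := Real.log_le_sub_one_of_pos (x := (((B + 1 : ℕ) : ℝ) + 1) / ((B : ℝ) + 1))
        (by positivity)
      refine h3.trans (le_of_eq ?_)
      push_cast
      field_simp
      ring
    linarith

/-- The inner sum. -/
private theorem phl_inner (d Y : ℕ) (hd : 1 ≤ d) (hY : 1 ≤ Y) :
    1 / (d : ℝ) * (Real.log 2 - 2 * d / Y) ≤
      ∑ s ∈ (Ioc (Y / 2) Y).filter (fun s => d ∣ s), 1 / (s : ℝ) := by
  have hd0 : (0 : ℝ) < d := by exact_mod_cast hd
  have hY0 : (0 : ℝ) < Y := by exact_mod_cast hY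
  have hAB : Y / 2 / d ≤ Y / d := Nat.div_le_div_right (Nat.div_le_self _ _)
  have h1 : ∑ s ∈ (Ioc (Y / 2 / d) (Y / d)).image (fun m => d * m), 1 / (s : ℝ) ≤
      ∑ s ∈ (Ioc (Y / 2) Y).filter (fun s => d ∣ s), 1 / (s : ℝ) := by
    refine Finset.sum_le_sum_of_subset_of_nonneg ?_ fun s _ _ => by positivity
    intro s hs
    obtain ⟨m, hm, rfl⟩ := Finset.mem_image.mp hs
    rw [Finset.mem_Ioc] at hm
    rw [Finset.mem_filter, Finset.mem_Ioc]
    refine ⟨⟨?_, ?_⟩, dvd_mul_right _ _⟩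
    · rw [mul_comm]; exact (Nat.div_lt_iff_lt_mul (by omega)).mp hm.1
    · rw [mul_comm]; exact (Nat.le_div_iff_mul_le (by omega)).mp hm.2
  refine le_trans ?_ h1
  rw [Finset.sum_image (by
    intro a _ b _ hab
    exact Nat.eq_of_mul_eq_mul_left (by omega) hab)]
  have h2 : ∑ m ∈ Ioc (Y / 2 / d) (Y / d), 1 / (((d * m : ℕ)) : ℝ) =
      1 / (d : ℝ) * ∑ m ∈ Ioc (Y / 2 / d) (Y / d), 1 / (m : ℝ) := by
    rw [Finset.mul_sum]
    refine Finset.sum_congr rfl fun m _ => ?_
    push_cast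
    rw [one_div_mul_one_div]
  rw [h2]
  refine mul_le_mul_of_nonneg_left ?_ (by positivity)
  refine le_trans ?_ (phl_harm _ _ hAB)
  have h3 : (Y : ℝ) / d ≤ ((Y / d : ℕ) : ℝ) + 1 := by
    rw [div_le_iff₀ hd0]
    have : Y < (Y / d + 1) * d := by
      have := Nat.lt_div_mul_add (a := Y) (b := d) (by omega)
      nlinarith
    exact_mod_cast this.le
  have h4 : ((Y / 2 / d : ℕ) : ℝ) ≤ (Y : ℝ) / (2 * d) := by
    rw [Nat.div_div_eq_div_mul]
    have := Nat.cast_div_le (α := ℝ) (m := Y) (n := 2 * d)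
    push_cast at this
    exact this
  have h5 : (0 : ℝ) < (Y : ℝ) / d := by positivity
  have h6 := Real.log_le_log h5 h3
  have h7 : Real.log (((Y / 2 / d : ℕ) : ℝ) + 1) ≤ Real.log ((Y : ℝ) / (2 * d) + 1) :=
    Real.log_le_log (by positivity) (by linarith)
  have h8 : Real.log ((Y : ℝ) / d) = Real.log 2 + Real.log ((Y : ℝ) / (2 * d)) := by
    rw [← Real.log_mul (by norm_num) (by positivity)]
    congr 1
    field_simp
  have h9 : Real.log ((Y : ℝ) / (2 * d) + 1) ≤ Real.log ((Y : ℝ) / (2 * d)) + 2 * d / Y := by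
    have e1 : (Y : ℝ) / (2 * d) + 1 = (Y : ℝ) / (2 * d) * (1 + 2 * d / Y) := by
      field_simp
    rw [e1, Real.log_mul (by positivity) (by positivity)]
    have := Real.log_le_sub_one_of_pos (x := 1 + 2 * (d : ℝ) / Y) (by positivity)
    linarith
  linarith

/-- The exchange of the sums. -/
private theorem phl_exch (h1 : S_Idp) (D Y : ℕ) :
    ∑ d ∈ (range D).filter Squarefree, 1 / (d.totient : ℝ) *
        ∑ s ∈ (Ioc (Y / 2) Y).filter (fun s => d ∣ s), 1 / (s : ℝ) ≤
      ∑ s ∈ Ioc (Y / 2) Y, 1 / (s.totient : ℝ) := by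
  have e1 : ∀ d ∈ (range D).filter Squarefree, 1 / (d.totient : ℝ) *
        ∑ s ∈ (Ioc (Y / 2) Y).filter (fun s => d ∣ s), 1 / (s : ℝ) =
      ∑ s ∈ Ioc (Y / 2) Y, if d ∣ s then 1 / (d.totient : ℝ) * (1 / (s : ℝ)) else 0 := by
    intro d _
    rw [Finset.sum_filter, Finset.mul_sum]
    refine Finset.sum_congr rfl fun s _ => ?_
    split_ifs
    · rfl
    · rw [mul_zero]
  rw [Finset.sum_congr rfl e1, Finset.sum_comm]
  refine Finset.sum_le_sum fun s hs => ?_
  rw [Finset.mem_Ioc] at hs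
  have hs1 : 1 ≤ s := by omega
  have hs0 : (0 : ℝ) < s := by exact_mod_cast hs1
  have hphi : (0 : ℝ) < (s.totient : ℝ) := by exact_mod_cast Nat.totient_pos.mpr hs1
  have h2 := h1 s hs1
  have h3 : 1 / (s.totient : ℝ) = 1 / (s : ℝ) * ∑ d ∈ s.divisors.filter Squarefree,
      1 / (d.totient : ℝ) := by
    rw [← h2]
    field_simp
  rw [h3, ← Finset.sum_filter, Finset.mul_sum]
  have h4 : ((range D).filter Squarefree).filter (fun d => d ∣ s) ⊆
      s.divisors.filter Squarefree := by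
    intro d hd
    rw [Finset.mem_filter, Finset.mem_filter] at hd
    rw [Finset.mem_filter, Nat.mem_divisors]
    exact ⟨⟨hd.2, by omega⟩, hd.1.2⟩
  refine le_trans (le_of_eq ?_) (Finset.sum_le_sum_of_subset_of_nonneg h4
    fun d _ _ => by positivity)
  exact Finset.sum_congr rfl fun d _ => mul_comm _ _

/-- **Module PhL.** -/
theorem tPhL (h1 : S_Idp) (h2 : S_C0s) : S_PhL := by
  intro ε hε
  obtain ⟨hs, hc⟩ := h2
  have hl : 0 < Real.log 2 := Real.log_pos (by norm_num)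
  rcases le_or_gt 1 ε with h | h
  · refine ⟨0, fun Y _ => ?_⟩
    have : (1 - ε) * c0 * Real.log 2 ≤ 0 := by
      have := mul_nonneg (mul_nonneg (sub_nonneg.mpr h) (zero_le_one.trans hc)) hl.le
      linarith
    exact this.trans (Finset.sum_nonneg fun s _ => by positivity)
  · have hs' : HasSum phlT c0 := by
      have := hs.hasSum
      exact this
    have hlt : (1 - ε / 2) * c0 < c0 := by nlinarith
    obtain ⟨D, hD⟩ := ((hs'.tendsto_sum_nat.eventually (lt_mem_nhds hlt)).exists)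
    obtain ⟨Y0, hY0⟩ := exists_nat_gt (4 * (D : ℝ) / (ε * Real.log 2))
    refine ⟨max Y0 1, fun Y hY => ?_⟩
    have hY1 : 1 ≤ Y := (le_max_right _ _).trans hY
    have hYp : (0 : ℝ) < Y := by exact_mod_cast hY1
    have hY2 : 4 * (D : ℝ) / (ε * Real.log 2) < Y :=
      hY0.trans_le (by exact_mod_cast (le_max_left _ _).trans hY)
    have hY3 : 4 * (D : ℝ) < Y * (ε * Real.log 2) := (div_lt_iff₀ (by positivity)).mp hY2
    refine le_trans ?_ (phl_exch h1 D Y)
    have h3 : ∀ d ∈ (range D).filter Squarefree, phlT d * ((1 - ε / 2) * Real.log 2) ≤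
        1 / (d.totient : ℝ) * ∑ s ∈ (Ioc (Y / 2) Y).filter (fun s => d ∣ s), 1 / (s : ℝ) := by
      intro d hd
      rw [Finset.mem_filter, Finset.mem_range] at hd
      have hd1 : 1 ≤ d := Nat.pos_of_ne_zero hd.2.ne_zero
      have hd0 : (0 : ℝ) < d := by exact_mod_cast hd1
      have hphi : (0 : ℝ) < (d.totient : ℝ) := by exact_mod_cast Nat.totient_pos.mpr hd1
      have h5 : phlT d = 1 / ((d : ℝ) * (d.totient : ℝ)) := if_pos hd.2
      have h6 : (1 - ε / 2) * Real.log 2 ≤ Real.log 2 - 2 * d / Y := by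
        have : 2 * (d : ℝ) / Y ≤ ε / 2 * Real.log 2 := by
          rw [div_le_iff₀ hYp]
          have : (d : ℝ) ≤ D := by exact_mod_cast hd.1.le
          nlinarith
        linarith
      have h7 := phl_inner d Y hd1 hY1
      have h8 : 1 / (d : ℝ) * ((1 - ε / 2) * Real.log 2) ≤
          ∑ s ∈ (Ioc (Y / 2) Y).filter (fun s => d ∣ s), 1 / (s : ℝ) :=
        (mul_le_mul_of_nonneg_left h6 (by positivity)).trans h7
      calc phlT d * ((1 - ε / 2) * Real.log 2) =
          1 / (d.totient : ℝ) * (1 / (d : ℝ) * ((1 - ε / 2) * Real.log 2)) := by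
            rw [h5]; field_simp
        _ ≤ _ := mul_le_mul_of_nonneg_left h8 (by positivity)
    refine le_trans ?_ (Finset.sum_le_sum h3)
    rw [← Finset.sum_mul]
    have h9 : ∑ d ∈ (range D).filter Squarefree, phlT d = ∑ d ∈ range D, phlT d := by
      rw [Finset.sum_filter]
      refine Finset.sum_congr rfl fun d _ => ?_
      unfold phlT
      split_ifs <;> rfl
    rw [h9]
    have h10 : (1 - ε / 2) * c0 * ((1 - ε / 2) * Real.log 2) ≤
        (∑ d ∈ range D, phlT d) * ((1 - ε / 2) * Real.log 2) :=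
      mul_le_mul_of_nonneg_right hD.le (by nlinarith)
    refine le_trans ?_ h10
    have h11 : (1 - ε) ≤ (1 - ε / 2) * (1 - ε / 2) := by nlinarith
    have h12 : 0 ≤ c0 * Real.log 2 := mul_nonneg (zero_le_one.trans hc) hl.le
    nlinarith [mul_le_mul_of_nonneg_right h11 h12]

end Pool.Agent.Lib.MP_a260de_nt.CN.A
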