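import Pool.Agent.Lib.MP_a260de_nt.CN.SpecA

/-!
MP_a260de_nt, PROJECT CN, part A, module PhU (helper80): upper bound for the sum of 1/φ(k).
-/

namespace Pool.Agent.Lib.MP_a260de_nt.CN.A

open Finset

namespace PhU

private theorem harm_le (K : ℕ) : ∑ m ∈ Icc 1 K, 1 / (m : ℝ) ≤ 1 + Real.log K := by
  have h := harmonic_le_one_add_log K
  rw [harmonic_eq_sum_Icc] at h
  push_cast at h
  simpa [one_div] using h

private theorem inner_le (K d : ℕ) (hd : 1 ≤ d) :
    ∑ k ∈ (Icc 1 K).filter (fun k => d ∣ k), 1 / (k : ℝ) ≤ 1 / (d : ℝ) * (1 + Real.log K) := by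
  have hsub : (Icc 1 K).filter (fun k => d ∣ k) ⊆ (Icc 1 K).image (fun m => d * m) := by
    intro k hk
    rw [mem_filter, mem_Icc] at hk
    obtain ⟨⟨hk1, hkK⟩, m, rfl⟩ := hk
    rw [mem_image]
    refine ⟨m, mem_Icc.2 ⟨?_, ?_⟩, rfl⟩
    · rcases Nat.eq_zero_or_pos m with h | h
      · subst h
        omega
      · exact h
    · exact le_trans (Nat.le_mul_of_pos_left m hd) hkK
  calc ∑ k ∈ (Icc 1 K).filter (fun k => d ∣ k), 1 / (k : ℝ) ≤
        ∑ k ∈ (Icc 1 K).image (fun m => d * m), 1 / (k : ℝ) :=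
        sum_le_sum_of_subset_of_nonneg hsub fun k _ _ => by positivity
    _ = ∑ m ∈ Icc 1 K, 1 / ((d * m : ℕ) : ℝ) := by
        rw [sum_image]
        intro a _ b _ hab
        exact Nat.eq_of_mul_eq_mul_left hd hab
    _ = 1 / (d : ℝ) * ∑ m ∈ Icc 1 K, 1 / (m : ℝ) := by
        rw [mul_sum]
        refine sum_congr rfl fun m _ => ?_
        push_cast
        rw [one_div_mul_one_div]
    _ ≤ 1 / (d : ℝ) * (1 + Real.log K) :=
        mul_le_mul_of_nonneg_left (harm_le K) (by positivity)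

end PhU

open PhU in
theorem tPhU (h1 : S_Idp) (h2 : S_C0s) : S_PhU := by
  intro K hK
  have hlog : 0 ≤ 1 + Real.log K := by
    have : 0 ≤ Real.log K := Real.log_natCast_nonneg K
    linarith
  have e1 : ∀ k ∈ Icc 1 K, 1 / (k.totient : ℝ) =
      ∑ d ∈ Icc 1 K, (if d ∣ k ∧ Squarefree d then 1 / (k : ℝ) * (1 / (d.totient : ℝ)) else 0) := by
    intro k hk
    rw [mem_Icc] at hk
    have hk0 : (0 : ℝ) < k := by exact_mod_cast hk.1
    have hset : k.divisors.filter Squarefree =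
        (Icc 1 K).filter (fun d => d ∣ k ∧ Squarefree d) := by
      ext d
      simp only [mem_filter, Nat.mem_divisors, mem_Icc]
      constructor
      · rintro ⟨⟨hdk, _⟩, hsq⟩
        exact ⟨⟨Nat.pos_of_dvd_of_pos hdk hk.1, (Nat.le_of_dvd hk.1 hdk).trans hk.2⟩, hdk, hsq⟩
      · rintro ⟨_, hdk, hsq⟩
        exact ⟨⟨hdk, by omega⟩, hsq⟩
    rw [← sum_filter, ← mul_sum, ← hset, ← h1 k hk.1]
    field_simp
  rw [sum_congr rfl e1, sum_comm]
  have e2 : ∀ d ∈ Icc 1 K,
      ∑ k ∈ Icc 1 K, (if d ∣ k ∧ Squarefree d then 1 / (k : ℝ) * (1 / (d.totient : ℝ)) else 0) ≤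
        (if Squarefree d then 1 / ((d : ℝ) * (d.totient : ℝ)) else 0) * (1 + Real.log K) := by
    intro d hd
    rw [mem_Icc] at hd
    by_cases hsq : Squarefree d
    · simp only [hsq, and_true, if_true]
      rw [← sum_filter, ← sum_mul]
      have h3 := inner_le K d hd.1
      have hφ : 0 ≤ 1 / (d.totient : ℝ) := by positivity
      calc (∑ k ∈ (Icc 1 K).filter (fun k => d ∣ k), 1 / (k : ℝ)) * (1 / (d.totient : ℝ)) ≤
            1 / (d : ℝ) * (1 + Real.log K) * (1 / (d.totient : ℝ)) :=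
            mul_le_mul_of_nonneg_right h3 hφ
        _ = 1 / ((d : ℝ) * (d.totient : ℝ)) * (1 + Real.log K) := by
            rw [← one_div_mul_one_div]
            ring
    · simp [hsq]
  refine (sum_le_sum e2).trans ?_
  rw [← sum_mul]
  refine mul_le_mul_of_nonneg_right ?_ hlog
  refine h2.1.sum_le_tsum _ fun d _ => ?_
  split_ifs
  · positivity
  · exact le_rfl

end Pool.Agent.Lib.MP_a260de_nt.CN.A
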