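import Pool.Agent.Lib.MP_a260de_nt.CN.SpecA

/-!
MP_a260de_nt, CN part A, module Sec: assembly of part A.
-/

namespace Pool.Agent.Lib.MP_a260de_nt.CN.A

open Finset Pool.Agent.Results.MP_00e23e_nt Filter

open Classical in
/-- the final counting step, for general `β` and general sets `Es` of primes `e ≤ z^β` -/
theorem Sec_fin {β : ℝ} (hβ : 0 < β) (h5 : S_Cmb)
    (h : ∃ z0 : ℝ, ∀ z : ℝ, z0 ≤ z → ∃ Es : Finset ℕ, (∀ e ∈ Es, e.Prime ∧ (e : ℝ) ≤ z ^ β) ∧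
      z / (Real.log z) ^ 4 ≤ ∑ e ∈ Es, ∑ s ∈ Sr z β, (primeCount z (e * s) 1 : ℝ) -
        ∑ e ∈ Es, ((bad3 z β e).card : ℝ)) : ShiftedSmooth β := by
  intro ε hε
  obtain ⟨C, hC, hCm⟩ := h5 β (ε / 2) hβ (half_pos hε)
  obtain ⟨z1, hz1⟩ := h
  have ev2 : ∀ᶠ z : ℝ in atTop, C * (Real.log z) ^ (4 : ℝ) ≤ z ^ (ε / 2) := by
    have h4 := (isLittleO_log_rpow_rpow_atTop (4 : ℝ) (half_pos hε)).bound
      (show (0 : ℝ) < 1 / C by positivity)
    filter_upwards [h4, eventually_ge_atTop (1 : ℝ)] with z hz hz1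
    have hl : 0 ≤ Real.log z := Real.log_nonneg hz1
    rw [Real.norm_eq_abs, Real.norm_eq_abs, abs_of_nonneg (Real.rpow_nonneg hl _),
      abs_of_nonneg (Real.rpow_nonneg (by linarith) _)] at hz
    calc C * (Real.log z) ^ (4 : ℝ) ≤ C * (1 / C * z ^ (ε / 2)) := by gcongr
      _ = z ^ (ε / 2) := by field_simp
  obtain ⟨z0, hz0⟩ := eventually_atTop.1 (ev2.and (eventually_ge_atTop (max 3 z1)))
  refine ⟨z0, fun z hz => ?_⟩
  obtain ⟨hza, hzb⟩ := hz0 z hz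
  have hz3 : 3 ≤ z := (le_max_left _ _).trans hzb
  have hzp : 0 < z := by linarith
  have hlp : 0 < Real.log z := Real.log_pos (by linarith)
  obtain ⟨Es, hEs, hmain⟩ := hz1 z ((le_max_right _ _).trans hzb)
  have h6 := hCm z (by linarith) Es hEs
  obtain ⟨G, hG⟩ : ∃ G : ℝ, G = (((Icc 1 ⌊z⌋₊).filter (fun p : ℕ => p.Prime ∧
      ∀ q ∈ (p - 1).primeFactors, (q : ℝ) ≤ z ^ β)).card : ℝ) := ⟨_, rfl⟩
  rw [← hG] at h6 ⊢
  have h7 : z / (Real.log z) ^ 4 ≤ C * z ^ (ε / 2) * G := by linarith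
  have h8 : (Real.log z) ^ (4 : ℝ) = (Real.log z) ^ 4 := by
    rw [← Real.rpow_natCast]
    norm_num
  rw [h8] at hza
  have hl4 : 0 < (Real.log z) ^ 4 := by positivity
  rw [div_le_iff₀ hl4] at h7
  -- z ≤ C z^(ε/2) G (log z)^4 ≤ z^ε G
  have hG0 : 0 ≤ G := by rw [hG]; positivity
  have h9 : z ≤ z ^ ε * G := by
    have h10 : z ^ ε = z ^ (ε / 2) * z ^ (ε / 2) := by
      rw [← Real.rpow_add hzp]
      ring_nf
    have hzε : 0 ≤ z ^ (ε / 2) := by positivity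
    calc z ≤ C * z ^ (ε / 2) * G * (Real.log z) ^ 4 := h7
      _ = (C * (Real.log z) ^ 4) * (z ^ (ε / 2) * G) := by ring
      _ ≤ z ^ (ε / 2) * (z ^ (ε / 2) * G) := by gcongr
      _ = z ^ ε * G := by rw [h10]; ring
  have h11 : z ^ (1 - ε) * z ^ ε = z := by
    rw [← Real.rpow_add hzp]
    simp
  have hzε : 0 < z ^ ε := by positivity
  have h12 : z ^ (1 - ε) * z ^ ε ≤ G * z ^ ε := by
    rw [h11]
    linarith
  exact le_of_mul_le_mul_right h12 hzε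

theorem tSec (h1 : S_C0s) (h2 : S_Ech) (h3 : S_N1) (h4 : S_N2) (h5 : S_Cmb) : S_Sec := by
  intro β hβ hβ2 hβ3
  apply Sec_fin hβ h5
  obtain ⟨g, hg⟩ : ∃ g : ℝ, g = β ^ 2 - 2 * (1 / 2 - β) := ⟨_, rfl⟩
  have hgp : 0 < g := by rw [hg]; linarith
  have hg1 : g ≤ β ^ 2 := by rw [hg]; linarith
  have hβq : 1 / 4 < β := by
    by_contra hcon
    push Not at hcon
    nlinarith
  obtain ⟨η, hη⟩ : ∃ η : ℝ, η = min ((1 / 2 - β) / 2) (g / 4) := ⟨_, rfl⟩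
  have hηp : 0 < η := by
    rw [hη]
    exact lt_min (by linarith) (by linarith)
  have hη1 : η ≤ (1 / 2 - β) / 2 := by rw [hη]; exact min_le_left _ _
  have hη2 : η ≤ g / 4 := by rw [hη]; exact min_le_right _ _
  have hβη : β + η < 1 / 2 := by linarith
  have hβsq : 0 < β ^ 2 := by positivity
  obtain ⟨ε, hε⟩ : ∃ ε : ℝ, ε = g / (8 * β ^ 2) := ⟨_, rfl⟩
  have hεp : 0 < ε := by rw [hε]; positivity
  obtain ⟨ρ, hρ⟩ : ∃ ρ : ℝ, ρ = 2 * (1 / 2 - β + η) / β ^ 2 := ⟨_, rfl⟩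
  have hρ0 : 0 ≤ ρ := by
    rw [hρ]
    apply div_nonneg _ hβsq.le
    linarith
  have hρ1 : ρ ≤ 1 - 4 * ε := by
    rw [hρ, hε, div_le_iff₀ hβsq]
    have : (1 - 4 * (g / (8 * β ^ 2))) * β ^ 2 = β ^ 2 - g / 2 := by
      field_simp
      ring
    rw [this]
    linarith
  have hkey : (1 + ε) * ρ ≤ 1 - 2 * ε := by nlinarith
  obtain ⟨θ, hθ⟩ : ∃ θ : ℝ, θ = 1 / 2 - β - η := ⟨_, rfl⟩
  have hθp : 0 < θ := by rw [hθ]; linarith
  have hθ1 : θ ≤ 1 := by rw [hθ]; linarith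
  have hθβ : 0 < β - θ := by rw [hθ]; linarith
  obtain ⟨zE, hzE⟩ := h2 θ hθp hθ1
  obtain ⟨zN, hzN⟩ := h3 β η ε 4 hβ hηp hβη hεp (by norm_num)
  obtain ⟨zM, hzM⟩ := h4 β η ε hβ hηp hβη hεp
  rw [← hθ] at hzN hzM
  have ev1 : ∀ᶠ z : ℝ in atTop, 4 / ε ≤ Real.log z :=
    Real.tendsto_log_atTop.eventually_ge_atTop _
  have ev2 : ∀ᶠ z : ℝ in atTop, 2 ≤ z ^ (β - θ) :=
    (tendsto_rpow_atTop hθβ).eventually_ge_atTop _
  obtain ⟨z0, hz0⟩ := eventually_atTop.1 ((ev1.and ev2).and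
    (eventually_ge_atTop (max (max 3 zE) (max zN zM))))
  refine ⟨z0, fun z hz => ?_⟩
  obtain ⟨⟨hz1, hz2⟩, hz3⟩ := hz0 z hz
  have hz31 : 3 ≤ z := (le_max_left _ _).trans ((le_max_left _ _).trans hz3)
  have hz32 : zE ≤ z := (le_max_right _ _).trans ((le_max_left _ _).trans hz3)
  have hz33 : zN ≤ z := (le_max_left _ _).trans ((le_max_right _ _).trans hz3)
  have hz34 : zM ≤ z := (le_max_right _ _).trans ((le_max_right _ _).trans hz3)
  have hzp : 0 < z := by linarith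
  have hlp : 0 < Real.log z := Real.log_pos (by linarith)
  have hE := hzE z hz32
  obtain ⟨E0, hE0⟩ : ∃ E0 : ℕ, E0 = ⌊z ^ θ⌋₊ := ⟨_, rfl⟩
  rw [← hE0] at hE
  obtain ⟨Es, hEs⟩ : ∃ Es : Finset ℕ, Es = (Ioc E0 (2 * E0)).filter Nat.Prime := ⟨_, rfl⟩
  rw [← hEs] at hE
  have hmem : ∀ e ∈ Es, e.Prime ∧ E0 < e ∧ e ≤ 2 * E0 := by
    intro e he
    rw [hEs, mem_filter, mem_Ioc] at he
    exact ⟨he.2, he.1.1, he.1.2⟩
  have hE0r : (E0 : ℝ) ≤ z ^ θ := by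
    rw [hE0]
    exact Nat.floor_le (by positivity)
  have hlt : ∀ e ∈ Es, z ^ θ < (e : ℝ) := by
    intro e he
    have h6 : E0 + 1 ≤ e := (hmem e he).2.1
    have h7 := Nat.lt_floor_add_one (z ^ θ)
    rw [← hE0] at h7
    have h8 : ((E0 : ℝ) + 1) ≤ (e : ℝ) := by exact_mod_cast h6
    linarith
  refine ⟨Es, fun e he => ⟨(hmem e he).1, ?_⟩, ?_⟩
  · have h6 : (e : ℝ) ≤ 2 * (E0 : ℝ) := by exact_mod_cast (hmem e he).2.2
    have h7 : z ^ (β - θ) * z ^ θ = z ^ β := by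
      rw [← Real.rpow_add hzp]
      ring_nf
    have h8 : 0 ≤ z ^ θ := by positivity
    calc (e : ℝ) ≤ 2 * (E0 : ℝ) := h6
      _ ≤ 2 * z ^ θ := by linarith
      _ ≤ z ^ (β - θ) * z ^ θ := mul_le_mul_of_nonneg_right hz2 h8
      _ = z ^ β := h7
  · have hN1 := hzN z hz33 Es (by
      intro e he
      rw [← hE0]
      exact hmem e he)
    have hN2 : ∑ e ∈ Es, ((bad3 z β e).card : ℝ) ≤
        (1 + ε) * ρ * (c0 * Real.log 2 * (z / Real.log z)) * ∑ e ∈ Es, 1 / (e : ℝ) := by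
      rw [mul_sum]
      refine Finset.sum_le_sum fun e he => ?_
      have h6 := hzM z hz34 e (hmem e he).1 (hlt e he) (by rw [← hE0]; exact (hmem e he).2.2)
      rw [← hρ] at h6
      calc ((bad3 z β e).card : ℝ) ≤
          (1 + ε) * ρ * c0 * Real.log 2 * (z / Real.log z) / e := h6
        _ = _ := by ring
    have hl2 : 1 / 2 ≤ Real.log 2 := by
      have := Real.log_two_gt_d9
      linarith
    have hc0 : 1 ≤ c0 := h1.2
    obtain ⟨S1, hS1⟩ : ∃ S2 : ℝ, S2 = ∑ e ∈ Es, 1 / (e : ℝ) := ⟨_, rfl⟩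
    rw [← hS1] at hN1 hN2 hE
    have hS0 : 0 ≤ S1 := by
      have : (0 : ℝ) ≤ 1 / (Real.log z) ^ 2 := by positivity
      linarith
    obtain ⟨Q, hQ⟩ : ∃ Q : ℝ, Q = c0 * Real.log 2 * (z / Real.log z) := ⟨_, rfl⟩
    have hQ0 : 1 / 2 * (z / Real.log z) ≤ Q := by
      rw [hQ]
      have h6 : (0 : ℝ) ≤ z / Real.log z := by positivity
      apply mul_le_mul_of_nonneg_right _ h6
      nlinarith
    have hQp : 0 ≤ Q := by
      have h6 : (0 : ℝ) ≤ z / Real.log z := by positivity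
      linarith
    rw [← hQ] at hN2
    have hN1' : (1 - ε) * Q * S1 - z / (Real.log z) ^ (4 : ℝ) ≤
        ∑ e ∈ Es, ∑ s ∈ Sr z β, (primeCount z (e * s) 1 : ℝ) := by
      calc (1 - ε) * Q * S1 - z / (Real.log z) ^ (4 : ℝ) =
          (1 - ε) * c0 * Real.log 2 * (z / Real.log z) * S1 - z / (Real.log z) ^ (4 : ℝ) := by
            rw [hQ]; ring
        _ ≤ _ := hN1
    have h8 : (Real.log z) ^ (4 : ℝ) = (Real.log z) ^ 4 := by
      rw [← Real.rpow_natCast]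
      norm_num
    rw [h8] at hN1'
    have hQS : 0 ≤ Q * S1 := mul_nonneg hQp hS0
    have hdiff : ε * (Q * S1) ≤ (1 - ε) * Q * S1 - (1 + ε) * ρ * Q * S1 := by
      have h9 : (1 - ε) * Q * S1 - (1 + ε) * ρ * Q * S1 = ((1 - ε) - (1 + ε) * ρ) * (Q * S1) := by
        ring
      rw [h9]
      exact mul_le_mul_of_nonneg_right (by linarith) hQS
    have hlow : 2 * (z / (Real.log z) ^ 4) ≤ ε * (Q * S1) := by
      have h9 : 1 / 2 * (z / Real.log z) * (1 / (Real.log z) ^ 2) ≤ Q * S1 :=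
        mul_le_mul hQ0 hE (by positivity) hQp
      have h10 : 4 ≤ ε * Real.log z := by
        rw [div_le_iff₀ hεp] at hz1
        linarith
      calc 2 * (z / (Real.log z) ^ 4) = (4 / Real.log z) *
          (1 / 2 * (z / Real.log z) * (1 / (Real.log z) ^ 2)) := by
            field_simp
            ring
        _ ≤ ε * (1 / 2 * (z / Real.log z) * (1 / (Real.log z) ^ 2)) := by
            apply mul_le_mul_of_nonneg_right _ (by positivity)
            rw [div_le_iff₀ hlp]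
            linarith
        _ ≤ ε * (Q * S1) := mul_le_mul_of_nonneg_left h9 hεp.le
    linarith

end Pool.Agent.Lib.MP_a260de_nt.CN.A
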