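import Pool.Agent.Lib.MP_a260de_nt.CN.SpecA
import Pool.Agent.Lib.MP_a260de_nt.CN.A.Idp
import Pool.Agent.Lib.MP_a260de_nt.CN.A.C0s
import Pool.Agent.Lib.MP_a260de_nt.CN.A.PhU
import Pool.Agent.Lib.MP_a260de_nt.CN.A.PhL
import Pool.Agent.Lib.MP_a260de_nt.CN.A.In2
import Pool.Agent.Lib.MP_a260de_nt.CN.A.GaL
import Pool.Agent.Lib.MP_a260de_nt.CN.A.GaW
import Pool.Agent.Lib.MP_a260de_nt.CN.A.GaQ
import Pool.Agent.Lib.MP_a260de_nt.CN.A.BT
import Pool.Agent.Lib.MP_a260de_nt.CN.A.Pi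
import Pool.Agent.Lib.MP_a260de_nt.CN.A.Ech
import Pool.Agent.Lib.MP_a260de_nt.CN.A.N1
import Pool.Agent.Lib.MP_a260de_nt.CN.A.N2a
import Pool.Agent.Lib.MP_a260de_nt.CN.A.N2b
import Pool.Agent.Lib.MP_a260de_nt.CN.A.N2
import Pool.Agent.Lib.MP_a260de_nt.CN.A.Cmb
import Pool.Agent.Lib.MP_a260de_nt.CN.A.Sec
import Pool.Agent.Lib.BV.All

/-!
MP_a260de_nt, PROJECT CN, part A (helper58): assembly, `S_A` without hypotheses.
-/

namespace Pool.Agent.Lib.MP_a260de_nt.CN.A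

theorem aIdp : S_Idp := tIdp
theorem aC0s : S_C0s := tC0s
theorem aPhU : S_PhU := tPhU aIdp aC0s
theorem aPhL : S_PhL := tPhL aIdp aC0s
theorem aBT : S_BT := tBT (tGaL aIdp) tGaW tGaQ
theorem aPi : S_Pi := tPi BV.aPnt
theorem aEch : S_Ech := tEch BV.aPnt
theorem aN1 : S_N1 := tN1 BV.aExt aC0s aPhL
theorem aN2b : S_N2b := tN2b tIn2 aPi
theorem aN2a : S_N2a := tN2a aBT
theorem aN2 : S_N2 := tN2 aC0s aPhU aN2a aN2b
theorem aCmb : S_Cmb := tCmb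

/-- for every `β` with `0 < β < 1/2` and `2 (1/2 - β) < β²` there are many primes `p` with `p - 1` being `z^β`-smooth -/
theorem aSec : S_Sec := tSec aC0s aEch aN1 aN2 aCmb

/-- part A of project CN -/
theorem aA : S_A := by
  apply aSec <;> norm_num

end Pool.Agent.Lib.MP_a260de_nt.CN.A
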