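import Pool.Agent.Lib.MP_a260de_nt.CN.SpecA

/-!
MP_a260de_nt, PROJECT CN, part A: upper bound for the number of primes up to x (S_Pi).
-/

namespace Pool.Agent.Lib.MP_a260de_nt.CN.A

open Finset Filter Pool.Agent.Results.MP_00e23e_nt

private lemma Pi_int {a b : ℝ} (ha : 2 ≤ a) (hab : a ≤ b) :
    IntervalIntegrable (fun t : ℝ => (Real.log t)⁻¹) MeasureTheory.volume a b := by
  apply ContinuousOn.intervalIntegrable
  rw [Set.uIcc_of_le hab]
  apply ContinuousOn.inv₀
  · apply Real.continuousOn_log.mono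
    intro t ht
    have h0 : (0 : ℝ) < t := by linarith [ht.1]
    exact h0.ne'
  · intro t ht
    have h1 : 0 < Real.log t := Real.log_pos (by linarith [ht.1])
    exact h1.ne'

private lemma Pi_li {u x : ℝ} (hu : 2 ≤ u) (hux : u ≤ x) :
    li x ≤ 2 * u + x / Real.log u := by
  have h1 : li x = li u + ∫ t in u..x, (Real.log t)⁻¹ := by
    unfold li
    exact (intervalIntegral.integral_add_adjacent_intervals (Pi_int le_rfl hu)
      (Pi_int hu hux)).symm
  have hlu : 0 < Real.log u := Real.log_pos (by linarith)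
  have h2 : |∫ t in u..x, (Real.log t)⁻¹| ≤ (Real.log u)⁻¹ * |x - u| := by
    rw [← Real.norm_eq_abs (∫ t in u..x, (Real.log t)⁻¹)]
    apply intervalIntegral.norm_integral_le_of_norm_le_const
    intro t ht
    rw [Set.uIoc_of_le hux] at ht
    have h3 : Real.log u ≤ Real.log t := Real.log_le_log (by linarith) ht.1.le
    rw [Real.norm_eq_abs, abs_of_nonneg (inv_nonneg.mpr (by linarith))]
    exact inv_anti₀ hlu h3
  rw [abs_of_nonneg (by linarith : (0 : ℝ) ≤ x - u)] at h2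
  have h4 := Pool.Agent.Lib.EH.li_le hu
  have h5 := le_trans (le_abs_self _) h2
  have h6 : (Real.log u)⁻¹ * (x - u) ≤ x / Real.log u := by
    rw [div_eq_inv_mul]
    exact mul_le_mul_of_nonneg_left (by linarith) (inv_nonneg.mpr hlu.le)
  linarith

theorem tPi (h1 : BV.PntStmt) : S_Pi := by
  intro ε hε
  obtain ⟨C, hC, hP⟩ := h1 2 (by norm_num)
  obtain ⟨δ, hδ⟩ : ∃ δ : ℝ, δ = ε / (2 + ε) := ⟨_, rfl⟩
  have hδ0 : 0 < δ := by
    rw [hδ]
    positivity
  have hδ1 : 1 - δ = 2 / (2 + ε) := by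
    rw [hδ]
    field_simp
    ring
  have hδ1' : 0 < 1 - δ := by
    rw [hδ1]
    positivity
  have e1 : ∀ᶠ x : ℝ in atTop, 3 ≤ x := eventually_ge_atTop 3
  have e2 : ∀ᶠ x : ℝ in atTop, 2 ≤ x ^ (1 - δ) :=
    (tendsto_rpow_atTop hδ1').eventually_ge_atTop 2
  have e3 : ∀ᶠ x : ℝ in atTop, 4 * C / ε ≤ Real.log x :=
    Real.tendsto_log_atTop.eventually_ge_atTop _
  have e4 : ∀ᶠ x : ℝ in atTop, ‖Real.log x‖ ≤ (ε / 8) * ‖x ^ δ‖ :=
    (isLittleO_log_rpow_atTop hδ0).def (by positivity)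
  obtain ⟨x1, hx1⟩ := eventually_atTop.mp (e1.and (e2.and (e3.and e4)))
  refine ⟨x1, fun x hx => ?_⟩
  obtain ⟨h3, h2, h4, h5⟩ := hx1 x hx
  have hx0 : 0 < x := by linarith
  have hL : 0 < Real.log x := Real.log_pos (by linarith)
  have hxδ : 0 < x ^ δ := Real.rpow_pos_of_pos hx0 _
  rw [Real.norm_eq_abs, Real.norm_eq_abs, abs_of_pos hL, abs_of_pos hxδ] at h5
  have hux : x ^ (1 - δ) ≤ x := by
    calc x ^ (1 - δ) ≤ x ^ (1 : ℝ) :=
          Real.rpow_le_rpow_of_exponent_le (by linarith) (by linarith)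
      _ = x := Real.rpow_one x
  have h6 := Pi_li h2 hux
  have h7 : Real.log (x ^ (1 - δ)) = (1 - δ) * Real.log x := Real.log_rpow hx0 _
  rw [h7] at h6
  have h8 : x / ((1 - δ) * Real.log x) = (1 + ε / 2) * (x / Real.log x) := by
    rw [hδ1]
    field_simp
  have h9 : 2 * x ^ (1 - δ) ≤ ε / 4 * (x / Real.log x) := by
    have hsum : x ^ (1 - δ) * x ^ δ = x := by
      rw [← Real.rpow_add hx0]
      simp
    have hu0 : 0 < x ^ (1 - δ) := Real.rpow_pos_of_pos hx0 _
    rw [← mul_div_assoc, le_div_iff₀ hL]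
    calc 2 * x ^ (1 - δ) * Real.log x ≤ 2 * x ^ (1 - δ) * (ε / 8 * x ^ δ) :=
          mul_le_mul_of_nonneg_left h5 (by positivity)
      _ = ε / 4 * (x ^ (1 - δ) * x ^ δ) := by ring
      _ = ε / 4 * x := by rw [hsum]
  have h10 : C * (x / Real.log x ^ (2 : ℝ)) ≤ ε / 4 * (x / Real.log x) := by
    rw [Real.rpow_two]
    have h12 : C ≤ ε / 4 * Real.log x := by
      rw [div_le_iff₀ hε] at h4
      linarith
    have e : C * (x / Real.log x ^ 2) = (C / Real.log x) * (x / Real.log x) := by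
      field_simp
    rw [e]
    apply mul_le_mul_of_nonneg_right _ (by positivity)
    rw [div_le_iff₀ hL]
    exact h12
  have h11 := (abs_le.mp (hP x h3)).2
  have h13 : (1 + ε) * (x / Real.log x) = (1 + ε / 2) * (x / Real.log x) +
      ε / 4 * (x / Real.log x) + ε / 4 * (x / Real.log x) := by ring
  rw [h8] at h6
  linarith

end Pool.Agent.Lib.MP_a260de_nt.CN.A
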